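import Pool.Agent.Q97.UM.Stm4

set_option autoImplicit false

/-! Project UM (helper97), job ZF2: finiteness and measurability of the counts of the nontrivial zeros. -/

namespace Pool.Agent.Q178.UM.ZF2

open Filter Topology MeasureTheory Complex Set
open Pool.Agent.Q97.UM

/-- zeta does not vanish in a punctured neighbourhood of any point -/
theorem punct (s0 : ℂ) : ∀ᶠ s in 𝓝[≠] s0, riemannZeta s ≠ 0 := by
  by_cases hs1 : s0 = 1
  · subst hs1
    have h1 := riemannZeta_residue_one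
    have h2 : ∀ᶠ s in 𝓝[≠] (1:ℂ), (s - 1) * riemannZeta s ≠ 0 :=
      h1.eventually_ne one_ne_zero
    filter_upwards [h2] with s hs h0
    rw [h0, mul_zero] at hs
    exact hs rfl
  · by_contra hcon
    have hfr2 : ∃ᶠ s in 𝓝[≠] s0, riemannZeta s = 0 := by
      rw [Filter.not_eventually] at hcon
      exact hcon.mono fun s hs => not_not.1 hs
    have han : AnalyticOnNhd ℂ riemannZeta ({1}ᶜ : Set ℂ) := by
      apply DifferentiableOn.analyticOnNhd _ isOpen_compl_singleton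
      intro z hz
      exact (differentiableAt_riemannZeta hz).differentiableWithinAt
    have hpre : IsPreconnected ({1}ᶜ : Set ℂ) := by
      apply (isConnected_compl_singleton_of_one_lt_rank _ 1).isPreconnected
      rw [Complex.rank_real_complex]
      norm_num
    have heq := han.eqOn_zero_of_preconnected_of_frequently_eq_zero hpre (show s0 ∈ ({1}ᶜ : Set ℂ) from hs1) hfr2
    have h2 : riemannZeta 2 = 0 := heq (by
      show (2 : ℂ) ∈ ({1}ᶜ : Set ℂ)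
      simp)
    exact riemannZeta_ne_zero_of_one_lt_re (by norm_num) h2

theorem fin_Zw (t r : ℝ) : (Zw t r).Finite := by
  by_contra hinf
  have hinf' : (Zw t r).Infinite := hinf
  have hsub : Zw t r ⊆ Icc 0 1 ×ℂ Icc (t - r) (t + r) := by
    rintro ρ ⟨_, h0, h1, h2⟩
    have h := abs_le.1 h2
    rw [mem_reProdIm]
    exact ⟨⟨h0.le, h1.le⟩, ⟨by linarith [h.1], by linarith [h.2]⟩⟩
  obtain ⟨s0, _, hacc⟩ := hinf'.exists_accPt_of_subset_isCompact (isCompact_Icc.reProdIm isCompact_Icc) hsub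
  have hfr : ∃ᶠ s in 𝓝[≠] s0, s ∈ Zw t r := accPt_iff_frequently_nhdsNE.1 hacc
  obtain ⟨s, h1, h2⟩ := (hfr.and_eventually (punct s0)).exists
  exact h2 h1.1

/-- all nontrivial zeros -/
def Z0 : Set ℂ := {ρ : ℂ | riemannZeta ρ = 0 ∧ 0 < ρ.re ∧ ρ.re < 1}

theorem countable_Z0 : Z0.Countable := by
  have h1 : Z0 ⊆ ⋃ n : ℕ, Zw 0 n := by
    rintro ρ ⟨h0, h1, h2⟩
    obtain ⟨n, hn⟩ := exists_nat_ge |ρ.im|
    rw [mem_iUnion]
    refine ⟨n, h0, h1, h2, ?_⟩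
    rwa [sub_zero]
  exact (countable_iUnion fun n : ℕ => (fin_Zw 0 (n : ℝ)).countable).mono h1

theorem sum_mono {F G : Set ℂ} (hG : G.Finite) (h : F ⊆ G) (m : ℂ → ℕ) : ∑ᶠ ρ ∈ F, m ρ ≤ ∑ᶠ ρ ∈ G, m ρ := by
  have hF := hG.subset h
  rw [finsum_mem_eq_finite_toFinset_sum m hF, finsum_mem_eq_finite_toFinset_sum m hG]
  apply Finset.sum_le_sum_of_subset
  intro x hx
  rw [Finite.mem_toFinset] at hx ⊢
  exact h hx

theorem t_ZF2 : S_ZF2 := by
  refine ⟨fin_Zw, fun r k => ?_, fun r α => ?_⟩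
  · have h1 : {t : ℝ | k ≤ nz t r} =
        ⋃ F ∈ {F : Set ℂ | (F.Finite ∧ F ⊆ Z0) ∧ k ≤ ∑ᶠ ρ ∈ F, analyticOrderNatAt riemannZeta ρ},
          ⋂ ρ ∈ F, {t : ℝ | |ρ.im - t| ≤ r} := by
      ext t
      simp only [mem_ofPred_eq, mem_iUnion, mem_iInter, exists_prop]
      constructor
      · intro h
        exact ⟨Zw t r, ⟨⟨fin_Zw t r, fun ρ hρ => ⟨hρ.1, hρ.2.1, hρ.2.2.1⟩⟩, h⟩, fun ρ hρ => hρ.2.2.2⟩
      · rintro ⟨F, ⟨⟨_, hF2⟩, hFk⟩, hF⟩
        refine hFk.trans (sum_mono (fin_Zw t r) ?_ _)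
        intro ρ hρ
        exact ⟨(hF2 hρ).1, (hF2 hρ).2.1, (hF2 hρ).2.2, hF ρ hρ⟩
    rw [h1]
    apply MeasurableSet.biUnion
    · exact (countable_ofPred_finite_subset countable_Z0).mono fun F hF => hF.1
    · intro F _
      apply IsClosed.measurableSet
      apply isClosed_biInter
      intro ρ _
      exact isClosed_le (by fun_prop) continuous_const
  · have h1 : {t : ℝ | ∃ ρ ∈ Zw t r, α ≤ |ρ.re - 1 / 2|} =
        ⋃ ρ ∈ {ρ : ℂ | ρ ∈ Z0 ∧ α ≤ |ρ.re - 1 / 2|}, {t : ℝ | |ρ.im - t| ≤ r} := by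
      ext t
      simp only [mem_ofPred_eq, mem_iUnion, exists_prop]
      constructor
      · rintro ⟨ρ, hρ, h⟩
        exact ⟨ρ, ⟨⟨hρ.1, hρ.2.1, hρ.2.2.1⟩, h⟩, hρ.2.2.2⟩
      · rintro ⟨ρ, ⟨hρ, h⟩, h2⟩
        exact ⟨ρ, ⟨hρ.1, hρ.2.1, hρ.2.2, h2⟩, h⟩
    rw [h1]
    apply MeasurableSet.biUnion
    · exact countable_Z0.mono fun ρ hρ => hρ.1
    · intro ρ _
      exact (isClosed_le (by fun_prop) continuous_const).measurableSet

end Pool.Agent.Q178.UM.ZF2
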