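import Pool.Agent.Q97.UM.Stm
import Pool.Agent.Erdos456.Mertens

set_option autoImplicit false

/-! Project UM (helper97), job PR: sums over primes. -/

namespace Pool.Agent.Q178.UM.PR

open Finset
open Pool.Agent.Q97.UM

/-- weighted Mertens sum up to a bound for `a log p` -/
theorem sum_upto : ∃ B : ℝ, 1 ≤ B ∧ ∀ (a V : ℝ) (S : Finset ℕ), 0 < a → 0 < V → (∀ p ∈ S, p.Prime) →
    ∑ p ∈ S.filter (fun p : ℕ => a * Real.log p ≤ V), a * Real.log p / p ≤ B * V := by
  obtain ⟨C, hC⟩ := Pool.Agent.Erdos456.Mert.mertens_log
  have hC0 : 0 ≤ C := (abs_nonneg _).trans (hC 1 le_rfl)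
  have hl2 : 0 < Real.log 2 := Real.log_pos (by norm_num)
  refine ⟨1 + C / Real.log 2, by
    have : 0 ≤ C / Real.log 2 := by positivity
    linarith, fun a V S ha hV hS => ?_⟩
  rcases lt_or_ge V (a * Real.log 2) with h | h
  · have h1 : S.filter (fun p : ℕ => a * Real.log p ≤ V) = ∅ := by
      rw [filter_eq_empty_iff]
      intro p hp hpV
      have h2 : Real.log 2 ≤ Real.log p :=
        Real.log_le_log (by norm_num) (by exact_mod_cast (hS p hp).two_le)
      have := mul_le_mul_of_nonneg_left h2 ha.le
      linarith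
    rw [h1, sum_empty]
    positivity
  · set N := ⌊Real.exp (V / a)⌋₊ with hN
    have hVa : Real.log 2 ≤ V / a := by rw [le_div_iff₀ ha]; linarith
    have h2 : (2:ℝ) ≤ Real.exp (V / a) := by
      rw [← Real.exp_log (show (0:ℝ) < 2 by norm_num)]
      exact Real.exp_le_exp.2 hVa
    have hN1 : 1 ≤ N := Nat.le_floor (by push_cast; linarith)
    have h3 : ∑ p ∈ S.filter (fun p : ℕ => a * Real.log p ≤ V), Real.log p / p ≤
        ∑ p ∈ (Icc 1 N).filter Nat.Prime, Real.log p / p := by
      apply sum_le_sum_of_subset_of_nonneg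
      · intro p hp
        rw [mem_filter] at hp
        have hpp := hS p hp.1
        rw [mem_filter, mem_Icc]
        refine ⟨⟨hpp.one_le, Nat.le_floor ?_⟩, hpp⟩
        have hp0 : (0:ℝ) < p := by exact_mod_cast hpp.pos
        rw [← Real.exp_log hp0]
        apply Real.exp_le_exp.2
        rw [le_div_iff₀ ha]
        linarith [hp.2]
      · intro p _ _
        exact div_nonneg (Real.log_natCast_nonneg p) (Nat.cast_nonneg p)
    have h4 := (abs_le.1 (hC N hN1)).2
    have h5 : Real.log N ≤ V / a := by
      have hN0 : (0:ℝ) < N := by exact_mod_cast hN1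
      rw [← Real.log_exp (V / a)]
      exact Real.log_le_log hN0 (Nat.floor_le (Real.exp_pos _).le)
    have h6 : ∑ p ∈ S.filter (fun p : ℕ => a * Real.log p ≤ V), a * Real.log p / p =
        a * ∑ p ∈ S.filter (fun p : ℕ => a * Real.log p ≤ V), Real.log p / p := by
      rw [mul_sum]
      apply sum_congr rfl
      intro p _
      ring
    rw [h6]
    calc a * ∑ p ∈ S.filter (fun p : ℕ => a * Real.log p ≤ V), Real.log p / p ≤ a * (V / a + C) := by
          apply mul_le_mul_of_nonneg_left _ ha.le
          linarith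
      _ = V + C * a := by field_simp
      _ ≤ V + C * (V / Real.log 2) := by
          have : a ≤ V / Real.log 2 := by rw [le_div_iff₀ hl2]; exact h
          have := mul_le_mul_of_nonneg_left this hC0
          linarith
      _ = (1 + C / Real.log 2) * V := by ring

/-- pointwise bound -/
theorem pt (u : ℝ) (hu : 0 < u) (J : ℕ) (hJ : u ≤ 4 ^ J) :
    min u (1 / √u) ≤ 8 * ∑ j ∈ range (J + 1), (if u ≤ 4 ^ j then u * (1 / 8) ^ j else 0) := by
  classical
  have hex : ∃ j : ℕ, u ≤ 4 ^ j := ⟨J, hJ⟩
  set j0 := Nat.find hex with hj0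
  have h1 : u ≤ 4 ^ j0 := Nat.find_spec hex
  have h2 : j0 ≤ J := Nat.find_min' hex hJ
  have h3 : u * (1 / 8) ^ j0 ≤ ∑ j ∈ range (J + 1), (if u ≤ 4 ^ j then u * (1 / 8) ^ j else 0) := by
    have h4 := single_le_sum (f := fun j : ℕ => if u ≤ 4 ^ j then u * (1 / 8) ^ j else 0) (s := range (J + 1)) (fun j _ => by
      show 0 ≤ if u ≤ 4 ^ j then u * (1 / 8) ^ j else 0
      split_ifs <;> positivity) (mem_range.2 (Nat.lt_succ_of_le h2))
    simp only [if_pos h1] at h4
    exact h4
  have h5 : min u (1 / √u) ≤ 8 * (u * (1 / 8) ^ j0) := by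
    rcases Nat.eq_zero_or_pos j0 with h0 | h0
    · rw [h0, pow_zero, mul_one]
      exact (min_le_left _ _).trans (by linarith)
    · have h6 : (4:ℝ) ^ (j0 - 1) < u := by
        have := Nat.find_min hex (m := j0 - 1) (by omega)
        push Not at this
        exact this
      have h7 : (2:ℝ) ^ (j0 - 1) ≤ √u := by
        apply Real.le_sqrt_of_sq_le
        rw [← pow_mul, mul_comm, pow_mul]
        norm_num
        exact h6.le
      refine (min_le_right _ _).trans ?_
      have hs : 0 < √u := Real.sqrt_pos.2 hu
      rw [div_le_iff₀ hs]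
      have h8 : (1 / 8 : ℝ) ^ j0 = (1 / 8) ^ (j0 - 1) * (1 / 8) := by
        rw [← pow_succ]
        congr 1
        omega
      have h9 : (4:ℝ) ^ (j0 - 1) * 2 ^ (j0 - 1) * (1 / 8) ^ (j0 - 1) = 1 := by
        rw [← mul_pow, ← mul_pow]
        norm_num
      have h10 : (4:ℝ) ^ (j0 - 1) * 2 ^ (j0 - 1) ≤ u * √u := by
        apply mul_le_mul h6.le h7 (by positivity) hu.le
      have h11 : (0:ℝ) < (1 / 8) ^ (j0 - 1) := by positivity
      have h12 := mul_le_mul_of_nonneg_right h10 h11.le
      rw [h8]
      nlinarith
  linarith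

/-- the main sum -/
theorem main_sum : ∃ B : ℝ, 1 ≤ B ∧ ∀ (a : ℝ) (S : Finset ℕ), 0 < a → (∀ p ∈ S, p.Prime) →
    ∑ p ∈ S, min (a * Real.log p) (1 / √(a * Real.log p)) / p ≤ B := by
  obtain ⟨B, hB1, hB⟩ := sum_upto
  refine ⟨16 * B, by linarith, fun a S ha hS => ?_⟩
  obtain ⟨J, hJ⟩ : ∃ J : ℕ, ∀ p ∈ S, a * Real.log p ≤ 4 ^ J := by
    obtain ⟨J, hJ⟩ := pow_unbounded_of_one_lt (∑ p ∈ S, a * Real.log p) (show (1:ℝ) < 4 by norm_num)
    refine ⟨J, fun p hp => ?_⟩
    have := single_le_sum (f := fun p : ℕ => a * Real.log p) (s := S)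
      (fun q _ => mul_nonneg ha.le (Real.log_natCast_nonneg q)) hp
    exact this.trans hJ.le
  have h1 : ∀ p ∈ S, min (a * Real.log p) (1 / √(a * Real.log p)) / p ≤
      8 * ∑ j ∈ range (J + 1), (if a * Real.log p ≤ 4 ^ j then (1 / 8 : ℝ) ^ j * (a * Real.log p / p) else 0) := by
    intro p hp
    have hpp := hS p hp
    have hp1 : (1:ℝ) < p := by exact_mod_cast hpp.one_lt
    have hp0 : (0:ℝ) < p := by linarith
    have hu : 0 < a * Real.log p := mul_pos ha (Real.log_pos hp1)
    have h2 := pt (a * Real.log p) hu J (hJ p hp)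
    rw [div_le_iff₀ hp0]
    refine h2.trans (le_of_eq ?_)
    rw [mul_assoc, sum_mul]
    congr 1
    apply sum_congr rfl
    intro j _
    split_ifs
    · field_simp
    · simp
  refine (sum_le_sum h1).trans ?_
  rw [← mul_sum, sum_comm]
  have h3 : ∀ j ∈ range (J + 1), ∑ p ∈ S, (if a * Real.log p ≤ 4 ^ j then (1 / 8 : ℝ) ^ j * (a * Real.log p / p) else 0) ≤
      B * (1 / 2) ^ j := by
    intro j _
    rw [← sum_filter, ← mul_sum]
    have h4 := hB a (4 ^ j) S ha (by positivity) hS
    calc (1 / 8 : ℝ) ^ j * ∑ p ∈ S.filter (fun p : ℕ => a * Real.log p ≤ 4 ^ j), a * Real.log p / p ≤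
          (1 / 8 : ℝ) ^ j * (B * 4 ^ j) := mul_le_mul_of_nonneg_left h4 (by positivity)
      _ = B * ((1 / 8) ^ j * 4 ^ j) := by ring
      _ = B * (1 / 2) ^ j := by
          rw [← mul_pow]
          norm_num
  have h5 : ∑ j ∈ range (J + 1), (1 / 2 : ℝ) ^ j ≤ 2 := by
    have := sum_geometric_two_le (J + 1)
    exact this
  calc 8 * ∑ j ∈ range (J + 1), ∑ p ∈ S, (if a * Real.log p ≤ 4 ^ j then (1 / 8 : ℝ) ^ j * (a * Real.log p / p) else 0) ≤
        8 * ∑ j ∈ range (J + 1), B * (1 / 2) ^ j := by
        apply mul_le_mul_of_nonneg_left (sum_le_sum h3) (by norm_num)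
    _ = 8 * (B * ∑ j ∈ range (J + 1), (1 / 2 : ℝ) ^ j) := by
        congr 1
        rw [mul_sum]
    _ ≤ 8 * (B * 2) := by
        apply mul_le_mul_of_nonneg_left _ (by norm_num)
        exact mul_le_mul_of_nonneg_left h5 (by linarith)
    _ = 16 * B := by ring

/-- the product of Mertens -/
theorem mert_prod : ∃ D : ℝ, 1 ≤ D ∧ ∀ X : ℕ, 2 ≤ X → ∏ p ∈ X.primesBelow, (1 - 1 / (p : ℝ)) ≤ D / Real.log X := by
  obtain ⟨C, hC⟩ := Pool.Agent.Erdos456.Mert.mertens_inv
  have hC0 : 0 ≤ C := (abs_nonneg _).trans (hC 3 le_rfl)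
  refine ⟨Real.exp (C + 1), Real.one_le_exp (by linarith), fun X hX => ?_⟩
  have hXr : (2:ℝ) ≤ X := by exact_mod_cast hX
  have hlX : 0 < Real.log X := Real.log_pos (by linarith)
  have h1 : ∏ p ∈ X.primesBelow, (1 - 1 / (p : ℝ)) ≤ Real.exp (-∑ p ∈ X.primesBelow, 1 / (p : ℝ)) := by
    rw [← sum_neg_distrib, Real.exp_sum]
    apply prod_le_prod
    · intro p hp
      have hpp := Nat.prime_of_mem_primesBelow hp
      have : (1:ℝ) ≤ p := by exact_mod_cast hpp.one_le
      have : 1 / (p : ℝ) ≤ 1 := by rw [div_le_one (by linarith)]; exact this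
      linarith
    · intro p _
      have := Real.add_one_le_exp (-(1 / (p : ℝ)))
      linarith
  refine h1.trans ?_
  rw [le_div_iff₀ hlX]
  rcases Nat.lt_or_ge X 3 with h3 | h3
  · have hX2 : X = 2 := by omega
    subst hX2
    have h4 : Real.log ((2:ℕ):ℝ) ≤ 1 := by
      push_cast
      have := Real.log_two_lt_d9
      linarith
    have h5 : Real.exp (-∑ p ∈ (2:ℕ).primesBelow, 1 / (p : ℝ)) ≤ 1 := by
      rw [Real.exp_le_one_iff]
      have : 0 ≤ ∑ p ∈ (2:ℕ).primesBelow, 1 / (p : ℝ) := sum_nonneg fun p _ => by positivity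
      linarith
    calc Real.exp (-∑ p ∈ (2:ℕ).primesBelow, 1 / (p : ℝ)) * Real.log ((2:ℕ):ℝ) ≤ 1 * 1 :=
          mul_le_mul h5 h4 hlX.le (by norm_num)
      _ ≤ Real.exp (C + 1) := by
          rw [one_mul]
          exact Real.one_le_exp (by linarith)
  · have h4 := (abs_le.1 (hC X h3)).1
    have h5 : ∑ p ∈ (Icc 1 X).filter Nat.Prime, (1:ℝ) / p ≤ ∑ p ∈ X.primesBelow, 1 / (p : ℝ) + 1 := by
      have h6 : (Icc 1 X).filter Nat.Prime ⊆ insert X X.primesBelow := by
        intro p hp
        rw [mem_filter, mem_Icc] at hp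
        rw [mem_insert, Nat.mem_primesBelow]
        rcases Nat.lt_or_ge p X with h | h
        · right
          exact ⟨h, hp.2⟩
        · left
          omega
      refine (sum_le_sum_of_subset_of_nonneg h6 (fun p _ _ => by positivity)).trans ?_
      have h7 : X ∉ X.primesBelow := by
        rw [Nat.mem_primesBelow]
        intro h
        omega
      rw [sum_insert h7]
      have : (1:ℝ) / X ≤ 1 := by rw [div_le_one (by linarith)]; linarith
      linarith
    have hll : Real.exp (-Real.log (Real.log X)) * Real.log X = 1 := by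
      rw [Real.exp_neg, Real.exp_log hlX, inv_mul_cancel₀ hlX.ne']
    calc Real.exp (-∑ p ∈ X.primesBelow, 1 / (p : ℝ)) * Real.log X ≤
          Real.exp (-Real.log (Real.log X) + (C + 1)) * Real.log X := by
          apply mul_le_mul_of_nonneg_right _ hlX.le
          apply Real.exp_le_exp.2
          linarith
      _ = Real.exp (C + 1) * (Real.exp (-Real.log (Real.log X)) * Real.log X) := by
          rw [Real.exp_add]
          ring
      _ = Real.exp (C + 1) := by rw [hll, mul_one]

theorem t_PR : S_PR := by
  obtain ⟨B, hB1, hB⟩ := main_sum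
  obtain ⟨D, hD1, hD⟩ := mert_prod
  refine ⟨max D (64 * (65 * B)), (le_max_left _ _).trans' hD1, fun X hX y hy => ?_⟩
  have hXr : (2:ℝ) ≤ X := by exact_mod_cast hX
  have hlX : 0 < Real.log X := Real.log_pos (by linarith)
  set a := (1 + y) / Real.log X with ha
  have ha0 : 0 < a := by positivity
  have hy1 : 1 ≤ 1 + y := by linarith
  set q := √(1 + y) with hq
  have hq1 : 1 ≤ q := by
    rw [hq, show (1:ℝ) = √1 by simp]
    exact Real.sqrt_le_sqrt (by simpa using hy1)
  have hqq : q * q = 1 + y := Real.mul_self_sqrt (by linarith)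
  constructor
  · -- the first product
    rw [prod_mul_distrib]
    have h1 : ∏ p ∈ X.primesBelow, (1 + 64 * (rp X y p + Fp X y p ^ 2) / (p:ℝ)) ≤
        Real.exp (64 * (65 * B) * q) := by
      have h2 : ∏ p ∈ X.primesBelow, (1 + 64 * (rp X y p + Fp X y p ^ 2) / (p:ℝ)) ≤
          Real.exp (∑ p ∈ X.primesBelow, 64 * (rp X y p + Fp X y p ^ 2) / (p:ℝ)) := by
        rw [Real.exp_sum]
        apply prod_le_prod
        · intro p _
          have h3 : 0 ≤ rp X y p := by
            unfold rp
            have : 0 ≤ (1 + y) / Real.log X * Real.log p := mul_nonneg ha0.le (Real.log_natCast_nonneg p)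
            exact mul_nonneg (Real.sqrt_nonneg _) (le_min this (by positivity))
          positivity
        · intro p _
          have := Real.add_one_le_exp (64 * (rp X y p + Fp X y p ^ 2) / (p:ℝ))
          linarith
      refine h2.trans (Real.exp_le_exp.2 ?_)
      have h3 : ∀ p ∈ X.primesBelow, 64 * (rp X y p + Fp X y p ^ 2) / (p:ℝ) ≤
          64 * 65 * q * (min (a * Real.log p) (1 / √(a * Real.log p)) / p) := by
        intro p hp
        have hpp := Nat.prime_of_mem_primesBelow hp
        have hpX := Nat.lt_of_mem_primesBelow hp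
        have hp1 : (1:ℝ) < p := by exact_mod_cast hpp.one_lt
        have hp0 : (0:ℝ) < p := by linarith
        have hlp : 0 < Real.log p := Real.log_pos hp1
        set u := a * Real.log p with hu
        have hu0 : 0 < u := mul_pos ha0 hlp
        have hsu : 0 < √u := Real.sqrt_pos.2 hu0
        have hsq : √u * √u = u := Real.mul_self_sqrt hu0.le
        have hu1 : u ≤ 1 + y := by
          have : Real.log p ≤ Real.log X := Real.log_le_log hp0 (by exact_mod_cast hpX.le)
          calc u = a * Real.log p := hu
            _ ≤ a * Real.log X := mul_le_mul_of_nonneg_left this ha0.le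
            _ = 1 + y := by rw [ha]; field_simp
        have e1 : rp X y p = q * min u (1 / u) := rfl
        have e2 : Fp X y p = 8 * min 1 u := rfl
        have h4 : min u (1 / u) ≤ min u (1 / √u) := by
          rcases le_or_gt u 1 with h | h
          · have h5 : √u ≤ 1 := by rw [Real.sqrt_le_one]; exact h
            have h6 : u ≤ 1 / √u := by rw [le_div_iff₀ hsu]; nlinarith
            rw [min_eq_left h6]
            exact min_le_left _ _
          · have h5 : √u ≤ u := by
              have : 1 ≤ √u := by
                rw [show (1:ℝ) = √1 by simp]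
                exact Real.sqrt_le_sqrt (by simpa using h.le)
              nlinarith
            have h6 : 1 / u ≤ 1 / √u := one_div_le_one_div_of_le hsu h5
            exact min_le_min le_rfl h6
        have h7 : (min 1 u) ^ 2 ≤ q * min u (1 / √u) := by
          rcases le_or_gt u 1 with h | h
          · have h5 : √u ≤ 1 := by rw [Real.sqrt_le_one]; exact h
            have h6 : u ≤ 1 / √u := by rw [le_div_iff₀ hsu]; nlinarith
            rw [min_eq_left h6, min_eq_right h]
            nlinarith
          · have h5 : √u ≤ u := by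
              have : 1 ≤ √u := by
                rw [show (1:ℝ) = √1 by simp]
                exact Real.sqrt_le_sqrt (by simpa using h.le)
              nlinarith
            have h5' : 1 ≤ √u := by
              rw [show (1:ℝ) = √1 by simp]
              exact Real.sqrt_le_sqrt (by simpa using h.le)
            have h6 : 1 / √u ≤ u := by rw [div_le_iff₀ hsu]; nlinarith
            rw [min_eq_right h6, min_eq_left h.le]
            have h8 : √u ≤ q := Real.sqrt_le_sqrt hu1
            rw [one_pow, mul_one_div, le_div_iff₀ hsu]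
            linarith
        have h9 : rp X y p + Fp X y p ^ 2 ≤ 65 * q * min u (1 / √u) := by
          rw [e1, e2, mul_pow]
          have := mul_le_mul_of_nonneg_left h4 (show 0 ≤ q by linarith)
          nlinarith
        calc 64 * (rp X y p + Fp X y p ^ 2) / (p:ℝ) ≤ 64 * (65 * q * min u (1 / √u)) / p := by
              apply div_le_div_of_nonneg_right _ hp0.le
              linarith
          _ = 64 * 65 * q * (min u (1 / √u) / p) := by ring
      refine (sum_le_sum h3).trans ?_
      rw [← mul_sum]
      have h4 := hB a X.primesBelow ha0 (fun p hp => Nat.prime_of_mem_primesBelow hp)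
      calc 64 * 65 * q * ∑ p ∈ X.primesBelow, (min (a * Real.log p) (1 / √(a * Real.log p)) / p) ≤ 64 * 65 * q * B :=
            mul_le_mul_of_nonneg_left h4 (by positivity)
        _ = 64 * (65 * B) * q := by ring
    have h5 := hD X hX
    have h6 : 0 ≤ ∏ p ∈ X.primesBelow, (1 - 1 / (p : ℝ)) := by
      apply prod_nonneg
      intro p hp
      have hpp := Nat.prime_of_mem_primesBelow hp
      have : (1:ℝ) ≤ p := by exact_mod_cast hpp.one_le
      have : 1 / (p : ℝ) ≤ 1 := by rw [div_le_one (by linarith)]; exact this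
      linarith
    calc (∏ p ∈ X.primesBelow, (1 - 1 / (p : ℝ))) * ∏ p ∈ X.primesBelow, (1 + 64 * (rp X y p + Fp X y p ^ 2) / (p:ℝ)) ≤
          (D / Real.log X) * Real.exp (64 * (65 * B) * q) :=
          mul_le_mul h5 h1 (prod_nonneg fun p _ => by
            have h3 : 0 ≤ rp X y p := by
              unfold rp
              have : 0 ≤ (1 + y) / Real.log X * Real.log p := mul_nonneg ha0.le (Real.log_natCast_nonneg p)
              exact mul_nonneg (Real.sqrt_nonneg _) (le_min this (by positivity))
            positivity) (by positivity)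
      _ ≤ max D (64 * (65 * B)) / Real.log X * Real.exp (max D (64 * (65 * B)) * q) := by
          apply mul_le_mul
          · exact div_le_div_of_nonneg_right (le_max_left _ _) hlX.le
          · apply Real.exp_le_exp.2
            exact mul_le_mul_of_nonneg_right (le_max_right _ _) (by linarith)
          · exact (Real.exp_pos _).le
          · apply div_nonneg _ hlX.le
            exact (by linarith : (0:ℝ) ≤ D).trans (le_max_left _ _)
  · -- the second product
    intro h hh hhX
    have h1 : ∀ p ∈ X.primesBelow, 1 + (h.factorization p : ℝ) * (Fp X y p ^ 2 / rp X y p) ≤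
        Real.exp (64 * a / q * ((h.factorization p : ℝ) * Real.log p)) := by
      intro p hp
      have hpp := Nat.prime_of_mem_primesBelow hp
      have hp1 : (1:ℝ) < p := by exact_mod_cast hpp.one_lt
      have hlp : 0 < Real.log p := Real.log_pos hp1
      set u := a * Real.log p with hu
      have hu0 : 0 < u := mul_pos ha0 hlp
      have e1 : rp X y p = q * min u (1 / u) := rfl
      have e2 : Fp X y p = 8 * min 1 u := rfl
      have h2 : Fp X y p ^ 2 / rp X y p = 64 * u / q := by
        rw [e1, e2]
        rcases le_or_gt u 1 with h | h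
        · have h6 : u ≤ 1 / u := by rw [le_div_iff₀ hu0]; nlinarith
          rw [min_eq_left h6, min_eq_right h]
          field_simp
          ring
        · have h6 : 1 / u ≤ u := by rw [div_le_iff₀ hu0]; nlinarith
          rw [min_eq_right h6, min_eq_left h.le]
          field_simp
          ring
      rw [h2]
      have h3 := Real.add_one_le_exp (64 * a / q * ((h.factorization p : ℝ) * Real.log p))
      have h4 : (h.factorization p : ℝ) * (64 * u / q) = 64 * a / q * ((h.factorization p : ℝ) * Real.log p) := by
        rw [hu]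
        ring
      rw [h4]
      linarith
    have h2 : ∏ p ∈ X.primesBelow, (1 + (h.factorization p : ℝ) * (Fp X y p ^ 2 / rp X y p)) ≤
        Real.exp (∑ p ∈ X.primesBelow, 64 * a / q * ((h.factorization p : ℝ) * Real.log p)) := by
      rw [Real.exp_sum]
      apply prod_le_prod
      · intro p _
        have h3 : 0 ≤ rp X y p := by
          unfold rp
          have : 0 ≤ (1 + y) / Real.log X * Real.log p := mul_nonneg ha0.le (Real.log_natCast_nonneg p)
          exact mul_nonneg (Real.sqrt_nonneg _) (le_min this (by positivity))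
        positivity
      · exact h1
    refine h2.trans (Real.exp_le_exp.2 ?_)
    rw [← mul_sum]
    have h3 : ∑ p ∈ X.primesBelow, (h.factorization p : ℝ) * Real.log p ≤ Real.log h := by
      have h4 : Real.log h = ∑ p ∈ h.primeFactors, (h.factorization p : ℝ) * Real.log p := by
        conv_lhs => rw [← Nat.prod_factorization_pow_eq_self (n := h) (by omega)]
        rw [Finsupp.prod, Nat.support_factorization]
        push_cast
        rw [Real.log_prod]
        · apply sum_congr rfl
          intro p _
          rw [Real.log_pow]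
        · intro p hp
          have := (Nat.prime_of_mem_primeFactors hp).pos
          positivity
      rw [h4]
      have h5 : ∑ p ∈ X.primesBelow, (h.factorization p : ℝ) * Real.log p =
          ∑ p ∈ X.primesBelow.filter (fun p => p ∈ h.primeFactors), (h.factorization p : ℝ) * Real.log p := by
        rw [sum_filter]
        apply sum_congr rfl
        intro p _
        split_ifs with h6
        · rfl
        · rw [← Nat.support_factorization, Finsupp.notMem_support_iff] at h6
          rw [h6]
          simp
      rw [h5]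
      apply sum_le_sum_of_subset_of_nonneg
      · intro p hp
        exact (mem_filter.1 hp).2
      · intro p _ _
        exact mul_nonneg (Nat.cast_nonneg _) (Real.log_natCast_nonneg p)
    have h4 : Real.log h ≤ Real.log X := Real.log_le_log (by exact_mod_cast hh) (by exact_mod_cast hhX.le)
    calc 64 * a / q * ∑ p ∈ X.primesBelow, (h.factorization p : ℝ) * Real.log p ≤ 64 * a / q * Real.log X :=
          mul_le_mul_of_nonneg_left (h3.trans h4) (by positivity)
      _ = 64 * q := by
          rw [ha, ← hqq]
          field_simp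
      _ ≤ max D (64 * (65 * B)) * q := by
          apply mul_le_mul_of_nonneg_right _ (by linarith)
          refine le_trans ?_ (le_max_right _ _)
          linarith

end Pool.Agent.Q178.UM.PR
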