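import Pool.Agent.Q97.UM.Stm3

set_option autoImplicit false

/-! Project UM (helper97), job CNT: counting form from existence form. -/

namespace Pool.Agent.Q178.UM.CNT

open Filter Topology MeasureTheory Complex Set
open Pool.Agent.Q97.UM

theorem Zo_mono (t : ℝ) {r r' : ℝ} (h : r ≤ r') (h0 : Zo t r' = ∅) : Zo t r = ∅ := by
  rw [eq_empty_iff_forall_notMem] at h0 ⊢
  intro u hu
  exact h0 u ⟨hu.1.trans h, hu.2⟩

/-- pigeonhole -/
theorem pig (hfin : ∀ t r : ℝ, (Zo t r).Finite) (t w ρ r : ℝ) (J : ℕ) (hρ : 2 * ρ < w) (hρ0 : 0 ≤ ρ)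
    (hρr : ρ ≤ r) (hJ : ∀ j : ℕ, j < J → j * w + ρ ≤ r) (hcard : ((Zo t r).ncard : ℝ) ≤ J / 2) :
    (J : ℝ) / 2 ≤ ∑ j ∈ Finset.range J, ({s : ℝ | Zo s ρ = ∅}).indicator (fun _ => (1:ℝ)) (t + j * w) := by
  classical
  have hw : 0 < w := by linarith
  set B := (Finset.range J).filter (fun j : ℕ => (Zo (t + j * w) ρ).Nonempty) with hB
  have hch : ∀ j : ℕ, ∃ u : ℝ, j ∈ B → u ∈ Zo (t + j * w) ρ := by
    intro j
    by_cases h : j ∈ B
    · obtain ⟨u, hu⟩ := (Finset.mem_filter.1 h).2
      exact ⟨u, fun _ => hu⟩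
    · exact ⟨0, fun h' => absurd h' h⟩
  choose φ hφ using hch
  have hinj : InjOn φ (B : Set ℕ) := by
    intro i hi j hj hij
    have h1 := (hφ i (Finset.mem_coe.1 hi)).1
    have h2 := (hφ j (Finset.mem_coe.1 hj)).1
    rw [hij] at h1
    rw [abs_le] at h1 h2
    by_contra hne
    rcases Nat.lt_or_gt_of_ne hne with h | h
    · have h3 : (i : ℝ) + 1 ≤ j := by exact_mod_cast h
      have h4 : ((i : ℝ) + 1) * w ≤ j * w := mul_le_mul_of_nonneg_right h3 hw.le
      nlinarith [h1.1, h1.2, h2.1, h2.2]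
    · have h3 : (j : ℝ) + 1 ≤ i := by exact_mod_cast h
      have h4 : ((j : ℝ) + 1) * w ≤ i * w := mul_le_mul_of_nonneg_right h3 hw.le
      nlinarith [h1.1, h1.2, h2.1, h2.2]
  have hcB : (B.card : ℝ) ≤ J / 2 := by
    have h1 : B.card ≤ (Zo t r).ncard := by
      rw [← Finset.card_image_of_injOn hinj, ← ncard_coe_finset]
      apply ncard_le_ncard _ (hfin t r)
      intro u hu
      rw [Finset.mem_coe, Finset.mem_image] at hu
      obtain ⟨j, hj, rfl⟩ := hu
      have h2 := hφ j hj
      refine ⟨?_, h2.2⟩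
      have h3 := abs_le.1 h2.1
      have hjJ : j < J := Finset.mem_range.1 (Finset.mem_filter.1 hj).1
      have h4 := hJ j hjJ
      have h5 : 0 ≤ (j : ℝ) * w := by positivity
      rw [abs_le]
      constructor <;> linarith [h3.1, h3.2]
    have h2 : (B.card : ℝ) ≤ ((Zo t r).ncard : ℝ) := by exact_mod_cast h1
    linarith
  have h1 : ∑ j ∈ Finset.range J, ({s : ℝ | Zo s ρ = ∅}).indicator (fun _ => (1:ℝ)) (t + j * w) =
      (((Finset.range J).filter (fun j : ℕ => ¬ (Zo (t + j * w) ρ).Nonempty)).card : ℝ) := by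
    rw [Finset.card_filter]
    push_cast
    apply Finset.sum_congr rfl
    intro j _
    by_cases h : (Zo (t + j * w) ρ).Nonempty
    · rw [indicator_of_notMem, if_neg (not_not.2 h)]
      intro h'
      exact h.ne_empty h'
    · rw [indicator_of_mem, if_pos h]
      exact not_nonempty_iff_eq_empty.1 h
  rw [h1]
  have h2 : (B.card : ℝ) + (((Finset.range J).filter (fun j : ℕ => ¬ (Zo (t + j * w) ρ).Nonempty)).card : ℝ) = J := by
    have := Finset.card_filter_add_card_filter_not (s := Finset.range J) (fun j : ℕ => (Zo (t + j * w) ρ).Nonempty)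
    rw [Finset.card_range] at this
    exact_mod_cast this
  linarith

theorem t_CNT : S_CNT := by
  intro hMVL hZF hDPM hE
  obtain ⟨hfin, hmeas⟩ := hZF
  obtain ⟨-, hshift, hdp⟩ := hDPM
  obtain ⟨θ, hθ, hθ40, hE⟩ := hE
  refine ⟨θ, hθ, fun ε hε => ?_⟩
  obtain ⟨R₁, T₁, hR1, hT1⟩ := hE (ε / 12) (by positivity)
  refine ⟨1 / (16 * R₁), 8 * R₁, max T₁ 16, by positivity, fun T hT R hR hRT N hN b => ?_⟩
  have hTT1 : T₁ ≤ T := (le_max_left _ _).trans hT
  have hT16 : 16 ≤ T := (le_max_right _ _).trans hT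
  have hT0 : 0 < T := by linarith
  have hR10 : 0 < R₁ := by linarith
  have hR0 : 0 < R := by linarith
  set L := Real.log T with hL
  have hL1 : 1 ≤ L := by
    rw [hL, Real.le_log_iff_exp_le hT0]
    have := Real.exp_one_lt_d9
    linarith
  have hL0 : 0 < L := by linarith
  set J := ⌊R / (4 * R₁)⌋₊ with hJdef
  have hJle : (J : ℝ) ≤ R / (4 * R₁) := Nat.floor_le (by positivity)
  have hJgt : R / (4 * R₁) < J + 1 := Nat.lt_floor_add_one _
  have hRR : 2 ≤ R / (4 * R₁) := by rw [le_div_iff₀ (by positivity)]; linarith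
  have hJ8 : R / (8 * R₁) ≤ J := by
    have e : R / (4 * R₁) = 2 * (R / (8 * R₁)) := by field_simp; ring
    rw [e] at hJgt hRR
    linarith
  have hJ0 : (0:ℝ) < J := lt_of_lt_of_le (by positivity) hJ8
  set w := 4 * R₁ / L with hw
  set ρ := 3 * R₁ / (2 * L) with hρ
  have hw0 : 0 < w := by positivity
  have hρ0 : 0 < ρ := by positivity
  have hρw : 2 * ρ < w := by
    rw [hρ, hw]
    have e : 2 * (3 * R₁ / (2 * L)) = 3 * R₁ / L := by field_simp
    rw [e]
    exact div_lt_div_of_pos_right (by linarith) hL0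
  have hρr : ρ ≤ R / L := by
    rw [hρ, div_le_div_iff₀ (by positivity) hL0]
    nlinarith
  have hjw : ∀ j : ℕ, j < J → j * w + ρ ≤ R / L := by
    intro j hj
    have h1 : (j : ℝ) + 1 ≤ J := by exact_mod_cast hj
    have h2 : ((j : ℝ) + 1) * w ≤ R / L := by
      calc ((j : ℝ) + 1) * w ≤ J * w := mul_le_mul_of_nonneg_right h1 hw0.le
        _ ≤ R / (4 * R₁) * w := mul_le_mul_of_nonneg_right hJle hw0.le
        _ = R / L := by rw [hw]; field_simp
    have h3 : ρ ≤ w := by linarith
    linarith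
  -- the sets
  set E : Set ℝ := {s : ℝ | Zo s ρ = ∅} with hEdef
  have hEm : MeasurableSet E := by
    have h1 : E = {s : ℝ | 1 ≤ (Zo s ρ).ncard}ᶜ := by
      ext s
      rw [mem_compl_iff, hEdef, mem_ofPred_eq, mem_ofPred_eq, not_le, Nat.lt_one_iff, ncard_eq_zero (hfin s ρ)]
    rw [h1]
    exact (hmeas ρ 1).compl
  set bad : Set ℝ := {t : ℝ | T ≤ t ∧ t ≤ 2 * T ∧ ((Zo t (R / L)).ncard : ℝ) < 1 / (16 * R₁) * R} with hbad
  have hbm : MeasurableSet bad := by
    have h1 : bad = Icc T (2 * T) ∩ {t : ℝ | ⌈1 / (16 * R₁) * R⌉₊ ≤ (Zo t (R / L)).ncard}ᶜ := by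
      ext t
      rw [mem_inter_iff, mem_Icc, mem_compl_iff, hbad, mem_ofPred_eq, mem_ofPred_eq, Nat.ceil_le, not_le, and_assoc]
    rw [h1]
    exact measurableSet_Icc.inter (hmeas _ _).compl
  have hbsub : bad ⊆ Icc T (2 * T) := fun t ht => ⟨ht.1, ht.2.1⟩
  set f : ℝ → ℝ := fun t => ‖dp N b t‖ ^ 2 with hf
  have hfc : Continuous f := ((hdp N b 0).2.norm).pow 2
  set g : ℕ → ℝ → ℝ := fun j s => ‖dp N (fun n => b n * (n : ℂ) ^ (((j * w : ℝ) : ℂ) * I)) s‖ ^ 2 with hg
  have hgc : ∀ j, Continuous (g j) := fun j => ((hdp N _ 0).2.norm).pow 2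
  have hg0 : ∀ j s, 0 ≤ g j s := fun j s => by positivity
  have hgf : ∀ (j : ℕ) (t : ℝ), g j (t + j * w) = f t := by
    intro j t
    have h1 := (hshift N b (t + j * w) (j * w)).1
    rw [add_sub_cancel_right] at h1
    rw [hf, hg]
    simp only
    rw [h1]
  have hN2g : ∀ j : ℕ, N2 N (fun n => b n * (n : ℂ) ^ (((j * w : ℝ) : ℂ) * I)) = N2 N b :=
    fun j => (hshift N b 0 (j * w)).2
  have hN20 : 0 ≤ N2 N b := by
    unfold N2
    exact Finset.sum_nonneg fun n _ => by positivity
  set F : ℕ → ℝ → ℝ := fun j => E.indicator (g j) with hF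
  have hF0 : ∀ j s, 0 ≤ F j s := fun j s => indicator_nonneg (fun x _ => hg0 j x) s
  have hFi : ∀ (j : ℕ) (x y : ℝ), IntervalIntegrable (F j) volume x y := by
    intro j x y
    have h1 := (hgc j).intervalIntegrable (μ := volume) x y
    exact ⟨h1.1.indicator hEm, h1.2.indicator hEm⟩
  -- pointwise
  have hpt : ∀ t ∈ bad, f t ≤ 2 / J * ∑ j ∈ Finset.range J, F j (t + j * w) := by
    intro t ht
    have h1 := pig hfin t w ρ (R / L) J hρw hρ0.le hρr hjw (by
      have h2 : 1 / (16 * R₁) * R = R / (8 * R₁) / 2 := by field_simp; ring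
      have h3 := ht.2.2
      rw [h2] at h3
      linarith)
    have h2 : ∑ j ∈ Finset.range J, F j (t + j * w) =
        f t * ∑ j ∈ Finset.range J, E.indicator (fun _ => (1:ℝ)) (t + j * w) := by
      rw [Finset.mul_sum]
      apply Finset.sum_congr rfl
      intro j _
      rw [hF]
      simp only
      by_cases h : t + j * w ∈ E
      · rw [indicator_of_mem h, indicator_of_mem h, hgf, mul_one]
      · rw [indicator_of_notMem h, indicator_of_notMem h, mul_zero]
    rw [h2]
    have h3 : 0 ≤ f t := by rw [hf]; positivity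
    have h4 := mul_le_mul_of_nonneg_left h1 h3
    calc f t = 2 / J * (f t * (J / 2)) := by field_simp
      _ ≤ 2 / J * (f t * ∑ j ∈ Finset.range J, E.indicator (fun _ => (1:ℝ)) (t + j * w)) :=
          mul_le_mul_of_nonneg_left h4 (by positivity)
  -- each shift
  have hpow : T ^ θ ≤ (2 * T) ^ θ := Real.rpow_le_rpow hT0.le (by linarith) hθ.le
  have hlog2 : L ≤ Real.log (2 * T) := Real.log_le_log hT0 (by linarith)
  have hEb : ∀ (j : ℕ) (T' : ℝ), T ≤ T' → ∫ s in T'..(2 * T'), F j s ≤ ε / 12 * T' * N2 N b := by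
    intro j T' hTT'
    have hT'0 : 0 < T' := by linarith
    have h1 := hT1 T' (hTT1.trans hTT') N (hN.trans (Real.rpow_le_rpow hT0.le hTT' hθ.le))
      (fun n => b n * (n : ℂ) ^ (((j * w : ℝ) : ℂ) * I))
    rw [hN2g j] at h1
    refine le_trans ?_ h1
    rw [intervalIntegral.integral_of_le (by linarith)]
    rw [hF]
    simp only
    rw [integral_indicator hEm, Measure.restrict_restrict hEm]
    apply setIntegral_mono_set
    · apply IntegrableOn.mono_set (t := Icc T' (2 * T'))
      · exact (hgc j).continuousOn.integrableOn_Icc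
      · intro s hs
        exact ⟨hs.1, hs.2.1⟩
    · exact Eventually.of_forall fun s => hg0 j s
    · apply HasSubset.Subset.eventuallyLE
      intro s hs
      refine ⟨hs.2.1.le, hs.2.2, Zo_mono s ?_ hs.1⟩
      rw [hρ]
      have h2 : L ≤ Real.log T' := Real.log_le_log hT0 hTT'
      have h3 : R₁ / Real.log T' ≤ R₁ / L := div_le_div_of_nonneg_left hR10.le hL0 h2
      have h4 : R₁ / L ≤ 3 * R₁ / (2 * L) := by
        rw [div_le_div_iff₀ hL0 (by positivity)]
        nlinarith
      linarith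
  have hsh : ∀ j ∈ Finset.range J, ∫ t in T..(2 * T), F j (t + j * w) ≤ ε / 4 * T * N2 N b := by
    intro j hj
    have hjJ := Finset.mem_range.1 hj
    rw [intervalIntegral.integral_comp_add_right (fun s => F j s) (j * w)]
    have hx0 : 0 ≤ (j : ℝ) * w := by positivity
    have hxT : (j : ℝ) * w ≤ T := by
      have h1 := hjw j hjJ
      have h2 : R / L ≤ T := by
        rw [div_le_iff₀ hL0]
        nlinarith
      linarith
    have h1 : ∫ s in (T + j * w)..(2 * T + j * w), F j s ≤ ∫ s in T..(2 * (2 * T)), F j s := by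
      apply intervalIntegral.integral_mono_interval (by linarith) (by linarith) (by linarith)
      · exact Eventually.of_forall fun s => hF0 j s
      · exact hFi j _ _
    rw [← intervalIntegral.integral_add_adjacent_intervals (hFi j T (2 * T)) (hFi j (2 * T) (2 * (2 * T)))] at h1
    have h2 := hEb j T le_rfl
    have h3 := hEb j (2 * T) (by linarith)
    linarith
  -- assembly
  have hGi : IntegrableOn (fun t => 2 / J * ∑ j ∈ Finset.range J, F j (t + j * w)) (Icc T (2 * T)) volume := by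
    apply Integrable.const_mul
    apply integrable_finset_sum
    intro j _
    have h1 : IntervalIntegrable (fun t => F j (t + j * w)) volume T (2 * T) := by
      have := (hFi j (T + j * w) (2 * T + j * w)).comp_add_right (j * w)
      simpa using this
    rw [intervalIntegrable_iff_integrableOn_Icc_of_le (by linarith)] at h1
    exact h1
  have hmain : ∫ t in bad, f t ≤ ε / 2 * T * N2 N b := by
    calc ∫ t in bad, f t ≤ ∫ t in bad, 2 / J * ∑ j ∈ Finset.range J, F j (t + j * w) :=
          setIntegral_mono_on (hfc.continuousOn.integrableOn_Icc.mono_set hbsub) (hGi.mono_set hbsub) hbm hpt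
      _ ≤ ∫ t in Icc T (2 * T), 2 / J * ∑ j ∈ Finset.range J, F j (t + j * w) := by
          apply setIntegral_mono_set hGi
          · apply Eventually.of_forall
            intro t
            exact mul_nonneg (by positivity) (Finset.sum_nonneg fun j _ => hF0 j _)
          · exact hbsub.eventuallyLE
      _ = ∫ t in T..(2 * T), 2 / J * ∑ j ∈ Finset.range J, F j (t + j * w) := by
          rw [intervalIntegral.integral_of_le (by linarith), integral_Icc_eq_integral_Ioc]
      _ = 2 / J * ∑ j ∈ Finset.range J, ∫ t in T..(2 * T), F j (t + j * w) := by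
          rw [intervalIntegral.integral_const_mul, intervalIntegral.integral_finset_sum]
          intro j _
          have := (hFi j (T + j * w) (2 * T + j * w)).comp_add_right (j * w)
          simpa using this
      _ ≤ 2 / J * ∑ _j ∈ Finset.range J, ε / 4 * T * N2 N b := by
          apply mul_le_mul_of_nonneg_left (Finset.sum_le_sum hsh) (by positivity)
      _ = ε / 2 * T * N2 N b := by
          rw [Finset.sum_const, Finset.card_range, nsmul_eq_mul]
          field_simp
          ring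
  have hN14 : (N : ℝ) ≤ T ^ (1 / 4 : ℝ) :=
    hN.trans (Real.rpow_le_rpow_of_exponent_le (by linarith) (by linarith))
  have h1 := (hMVL T hT16 N hN14 b).1
  calc ∫ t in bad, f t ≤ ε / 2 * T * N2 N b := hmain
    _ = ε * (T / 2 * N2 N b) := by ring
    _ ≤ ε * ∫ t in T..(2 * T), f t := mul_le_mul_of_nonneg_left h1 hε.le

end Pool.Agent.Q178.UM.CNT
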