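import Pool.Agent.Q97.UM.Stm6

set_option autoImplicit false

/-! UM2-EFF: the two-sided explicit formula (`S_EFF`). -/

namespace Pool.Agent.Q178.UMEff

open Filter Topology MeasureTheory Complex
open scoped ComplexConjugate
open H370 H370.A2

/-- symmetry of the zero sum -/
lemma AA_conj {F : ℂ → ℂ} (hF : GoodL F) {U1 U2 : ℝ} (hU : 1 ≤ U1) (u t : ℝ) :
    conj (AA F U1 U2 u t) = AA F U1 U2 (-u) t := by
  rw [AA_eq hF hU, AA_eq hF hU, map_sum, ← sum_refl hF hU (fun s => (mult F s : ℂ) * hh (-u) t s)]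
  refine Finset.sum_congr rfl fun s hs => ?_
  have hs' := (mem_Zf hF hU).mp hs
  rw [mult_refl hF hs'.1 hs'.2.1 (by linarith [hs'.2.2.1]), map_mul, Complex.conj_natCast, hh_conj, hh_eq, zz_refl]
  congr 3
  push_cast
  ring

/-- a convergent majorant -/
lemma maj (n : ℕ) (u : ℝ) (hu : 0 ≤ u) :
    ArithmeticFunction.vonMangoldt n * (Real.sqrt n)⁻¹ * Real.exp (-(-u - Real.log n) ^ 2 / 2) ≤
      4 * Real.exp 2 * Real.exp (-u) * (1 / (n : ℝ) ^ 2) := by
  rcases Nat.eq_zero_or_pos n with rfl | hn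
  · simp
  have hn1 : (1 : ℝ) ≤ n := by exact_mod_cast hn
  have hn0 : (0 : ℝ) < n := by linarith
  have hsq : 0 < Real.sqrt n := Real.sqrt_pos.mpr hn0
  have hlog : 0 ≤ Real.log n := Real.log_nonneg hn1
  have h1 : ArithmeticFunction.vonMangoldt n * (Real.sqrt n)⁻¹ ≤ 2 := by
    have h2 : ArithmeticFunction.vonMangoldt n ≤ Real.log n := ArithmeticFunction.vonMangoldt_le_log
    have h3 : Real.log n = 2 * Real.log (Real.sqrt n) := by
      rw [Real.log_sqrt hn0.le]; ring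
    have h4 := Real.log_le_self (Real.sqrt_nonneg (n : ℝ))
    rw [← div_eq_mul_inv, div_le_iff₀ hsq]
    linarith
  have h5 : Real.exp (-(-u - Real.log n) ^ 2 / 2) ≤ 2 * Real.exp 2 * Real.exp (-u) * (1 / (n : ℝ) ^ 2) := by
    have h6 : (1 / (n : ℝ) ^ 2) = Real.exp (-(2 * Real.log n)) := by
      rw [Real.exp_neg, two_mul, Real.exp_add, Real.exp_log hn0]
      rw [one_div, sq]
    have h7 : (2 : ℝ) ≥ Real.exp (1 / 2) := by
      have := Real.exp_one_lt_d9
      have h5 : Real.exp (1 / 2) ^ 2 = Real.exp 1 := by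
        rw [← Real.exp_nat_mul]; norm_num
      nlinarith [Real.exp_pos (1 / 2 : ℝ)]
    rw [h6]
    calc Real.exp (-(-u - Real.log n) ^ 2 / 2)
        ≤ Real.exp (1 / 2 + 2 + -u + -(2 * Real.log n)) := by
          apply Real.exp_le_exp.mpr
          nlinarith [sq_nonneg (u - 1), sq_nonneg (Real.log n - 2), mul_nonneg hu hlog]
      _ = Real.exp (1 / 2) * Real.exp 2 * Real.exp (-u) * Real.exp (-(2 * Real.log n)) := by
          rw [Real.exp_add, Real.exp_add, Real.exp_add]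
      _ ≤ 2 * Real.exp 2 * Real.exp (-u) * Real.exp (-(2 * Real.log n)) := by
          gcongr
  calc ArithmeticFunction.vonMangoldt n * (Real.sqrt n)⁻¹ * Real.exp (-(-u - Real.log n) ^ 2 / 2)
      ≤ 2 * (2 * Real.exp 2 * Real.exp (-u) * (1 / (n : ℝ) ^ 2)) := by
        apply mul_le_mul h1 h5 (Real.exp_pos _).le (by norm_num)
    _ = _ := by ring

/-- the opposite prime sum is negligible -/
lemma PP_neg : ∃ D : ℝ, 0 < D ∧ ∀ u t : ℝ, 0 ≤ u → ‖PP lamC (-u) t‖ ≤ D * Real.exp (-u) := by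
  have hs : Summable (fun n : ℕ => 1 / (n : ℝ) ^ 2) := Real.summable_one_div_nat_pow.mpr (by norm_num)
  refine ⟨4 * Real.exp 2 * (∑' n : ℕ, 1 / (n : ℝ) ^ 2) + 1, ?_, fun u t hu => ?_⟩
  · have : 0 ≤ ∑' n : ℕ, 1 / (n : ℝ) ^ 2 := tsum_nonneg fun n => by positivity
    positivity
  have h1 : HasSum (fun n : ℕ => 4 * Real.exp 2 * Real.exp (-u) * (1 / (n : ℝ) ^ 2))
      (4 * Real.exp 2 * Real.exp (-u) * ∑' n : ℕ, 1 / (n : ℝ) ^ 2) := hs.hasSum.mul_left _
  have h2 : ‖PP lamC (-u) t‖ ≤ 4 * Real.exp 2 * Real.exp (-u) * ∑' n : ℕ, 1 / (n : ℝ) ^ 2 := by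
    unfold PP
    refine tsum_of_norm_bounded h1 fun n => ?_
    refine le_trans (le_of_eq ?_) (maj n u hu)
    rw [norm_mul, norm_mul, norm_mul, lamC_norm, norm_inv, Complex.norm_real, Real.norm_of_nonneg (Real.sqrt_nonneg _)]
    have h3 : ‖cexp (I * t * (((-u : ℝ) : ℂ) - Real.log n))‖ = 1 := by
      have : I * t * (((-u : ℝ) : ℂ) - Real.log n) = ((t * (-u - Real.log n) : ℝ) : ℂ) * I := by
        push_cast; ring
      rw [this, Complex.norm_exp_ofReal_mul_I]
    rw [h3, mul_one, Complex.norm_real, Real.norm_of_nonneg (Real.exp_pos _).le]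
  refine h2.trans ?_
  nlinarith [Real.exp_pos (-u)]

/-- the explicit formula for `u ≥ 0`, with the error `O(e^{-u})` -/
lemma eff_pos : ∃ C T₀ : ℝ, 0 < C ∧ 10 ≤ T₀ ∧ ∀ T : ℝ, T₀ ≤ T → ∀ u t : ℝ, 0 ≤ u → u ≤ Real.log T →
    T + 2 * Real.log T ≤ t → t ≤ 2 * T - 2 * Real.log T →
    ‖AA riemannZeta (T + 1) (2 * T - 1) u t - ((1 / Real.sqrt (2 * Real.pi) : ℝ) : ℂ) *
      ((Real.log T : ℂ) * cexp (I * u * t) * ((Real.exp (-u ^ 2 / 2) : ℝ) : ℂ) - PP lamC u t -
        conj (PP lamC (-u) t))‖ ≤ C * Real.exp (-u) := by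
  classical
  have hF := good_zeta
  obtain ⟨C, T0, hC, hT0, hEF⟩ := ef_known hF (a := lamC) (fun n => (lamC_norm n).le)
    (fun s hs _ => ld_zeta s hs)
  obtain ⟨C2, hC2, hN⟩ := NN_crude hF
  obtain ⟨D, hD, hPP⟩ := PP_neg
  refine ⟨C + 4 * C2 + D, max T0 (Real.exp 6), by positivity, hT0.trans (le_max_left _ _),
    fun T hT u t hu huL ht1 ht2 => ?_⟩
  have hTT0 : T0 ≤ T := (le_max_left _ _).trans hT
  have hT10 : 10 ≤ T := hT0.trans hTT0
  have hTpos : 0 < T := by linarith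
  obtain ⟨U1, U2, hU1, hU1', hU2', hU2, hmain⟩ := hEF T hTT0
  have hU : 1 ≤ U1 := by linarith
  have hUA : 1 ≤ T + 1 := by linarith
  set L := Real.log T with hL
  have hL4 : 6 ≤ L := by
    rw [hL, Real.le_log_iff_exp_le hTpos]
    exact (le_max_right _ _).trans hT
  have h1 := hmain u t hu huL (by linarith) (by linarith)
  -- the zeros outside
  have hsub : Zf riemannZeta (T + 1) (2 * T - 1) ⊆ Zf riemannZeta U1 U2 := by
    intro s hs
    rw [mem_Zf hF hUA] at hs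
    rw [mem_Zf hF hU]
    exact ⟨hs.1, hs.2.1, by linarith [hs.2.2.1], by linarith [hs.2.2.2.1], hs.2.2.2.2⟩
  have hdiff : AA riemannZeta U1 U2 u t - AA riemannZeta (T + 1) (2 * T - 1) u t =
      ∑ s ∈ Zf riemannZeta U1 U2 \ Zf riemannZeta (T + 1) (2 * T - 1), (mult riemannZeta s : ℂ) * hh u t s := by
    rw [AA_eq hF hU, AA_eq hF hUA, ← Finset.sum_sdiff hsub]
    ring
  have hnorm : ‖AA riemannZeta U1 U2 u t - AA riemannZeta (T + 1) (2 * T - 1) u t‖ ≤ 4 * C2 * Real.exp (-u) := by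
    rw [hdiff]
    have h2 : ∀ s ∈ Zf riemannZeta U1 U2 \ Zf riemannZeta (T + 1) (2 * T - 1),
        ‖(mult riemannZeta s : ℂ) * hh u t s‖ ≤
        (mult riemannZeta s : ℝ) * (2 * Real.exp (u / 2) * Real.exp (-L ^ 2 / 2)) := by
      intro s hs
      rw [Finset.mem_sdiff, mem_Zf hF hU, mem_Zf hF hUA] at hs
      obtain ⟨hs1, hs2⟩ := hs
      rw [norm_mul, Complex.norm_natCast]
      apply mul_le_mul_of_nonneg_left _ (Nat.cast_nonneg _)
      refine (norm_hh_le hs1 u t hu).trans ?_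
      have h3 : L ^ 2 ≤ (s.im - t) ^ 2 := by
        have h4 : s.im ≤ T + 1 ∨ 2 * T - 1 < s.im := by
          by_contra hcon
          push Not at hcon
          exact hs2 ⟨hs1.1, hs1.2.1, hcon.1, hcon.2, hs1.2.2.2.2⟩
        rcases h4 with h4 | h4
        · nlinarith
        · nlinarith
      apply mul_le_mul_of_nonneg_left _ (by positivity)
      apply Real.exp_le_exp.mpr
      linarith
    refine (norm_sum_le _ _).trans ((Finset.sum_le_sum h2).trans ?_)
    rw [← Finset.sum_mul]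
    have h3 : ∑ s ∈ Zf riemannZeta U1 U2 \ Zf riemannZeta (T + 1) (2 * T - 1), (mult riemannZeta s : ℝ) ≤
        C2 * (T * L) := by
      refine le_trans ?_ (hN T (by linarith) U1 U2 hU1 hU2)
      rw [NN_eq hF hU, Nat.cast_sum]
      exact Finset.sum_le_sum_of_subset_of_nonneg Finset.sdiff_subset fun _ _ _ => by positivity
    have h6 : L ≤ 2 * Real.exp (L / 2) := by
      have := Real.add_one_le_exp (L / 2)
      linarith
    have hTe : T = Real.exp L := by rw [hL, Real.exp_log hTpos]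
    have h5 : Real.exp L * Real.exp (L / 2) * Real.exp (u / 2) * Real.exp (-L ^ 2 / 2) ≤ Real.exp (-u) := by
      rw [← Real.exp_add, ← Real.exp_add, ← Real.exp_add]
      apply Real.exp_le_exp.mpr
      nlinarith
    calc (∑ s ∈ Zf riemannZeta U1 U2 \ Zf riemannZeta (T + 1) (2 * T - 1), (mult riemannZeta s : ℝ)) *
          (2 * Real.exp (u / 2) * Real.exp (-L ^ 2 / 2))
        ≤ (C2 * (T * (2 * Real.exp (L / 2)))) *
          (2 * Real.exp (u / 2) * Real.exp (-L ^ 2 / 2)) := by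
          apply mul_le_mul _ le_rfl (by positivity) (by positivity)
          refine h3.trans ?_
          gcongr
      _ = 4 * C2 * (T * Real.exp (L / 2) * Real.exp (u / 2) * Real.exp (-L ^ 2 / 2)) := by ring
      _ = 4 * C2 * (Real.exp L * Real.exp (L / 2) * Real.exp (u / 2) * Real.exp (-L ^ 2 / 2)) := by rw [← hTe]
      _ ≤ 4 * C2 * Real.exp (-u) := by gcongr
  have hc1 : ‖((1 / Real.sqrt (2 * Real.pi) : ℝ) : ℂ) * conj (PP lamC (-u) t)‖ ≤ D * Real.exp (-u) := by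
    rw [norm_mul, Complex.norm_real, RCLike.norm_conj, Real.norm_of_nonneg (by positivity)]
    have h7 : 1 / Real.sqrt (2 * Real.pi) ≤ 1 := by
      rw [div_le_one (by positivity)]
      apply Real.one_le_sqrt.mpr
      nlinarith [Real.pi_gt_three]
    calc 1 / Real.sqrt (2 * Real.pi) * ‖PP lamC (-u) t‖ ≤ 1 * (D * Real.exp (-u)) :=
          mul_le_mul h7 (hPP u t hu) (norm_nonneg _) zero_le_one
      _ = _ := one_mul _
  have e1 : AA riemannZeta (T + 1) (2 * T - 1) u t - ((1 / Real.sqrt (2 * Real.pi) : ℝ) : ℂ) *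
      ((L : ℂ) * cexp (I * u * t) * ((Real.exp (-u ^ 2 / 2) : ℝ) : ℂ) - PP lamC u t -
        conj (PP lamC (-u) t)) =
      (AA riemannZeta U1 U2 u t - (1 / Real.sqrt (2 * Real.pi) : ℝ) * (L * cexp (I * u * t) *
              Real.exp (-u ^ 2 / 2) - PP lamC u t)) -
        (AA riemannZeta U1 U2 u t - AA riemannZeta (T + 1) (2 * T - 1) u t) +
        ((1 / Real.sqrt (2 * Real.pi) : ℝ) : ℂ) * conj (PP lamC (-u) t) := by ring
  rw [e1]
  calc ‖_‖ ≤ ‖(AA riemannZeta U1 U2 u t - (1 / Real.sqrt (2 * Real.pi) : ℝ) * (L * cexp (I * u * t) *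
              Real.exp (-u ^ 2 / 2) - PP lamC u t)) -
        (AA riemannZeta U1 U2 u t - AA riemannZeta (T + 1) (2 * T - 1) u t)‖ +
        ‖((1 / Real.sqrt (2 * Real.pi) : ℝ) : ℂ) * conj (PP lamC (-u) t)‖ := norm_add_le _ _
    _ ≤ (C * Real.exp (-u) + 4 * C2 * Real.exp (-u)) + D * Real.exp (-u) := by
        refine add_le_add ((norm_sub_le _ _).trans (add_le_add h1 hnorm)) hc1
    _ = _ := by ring

theorem t_EFF : Pool.Agent.Q97.UM.S_EFF := by
  obtain ⟨C, T₀, hC, hT₀, h⟩ := eff_pos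
  refine ⟨C, T₀, hC, hT₀, fun T hT u t hu ht1 ht2 => ?_⟩
  rcases le_total 0 u with h0 | h0
  · rw [abs_of_nonneg h0] at hu ⊢
    exact h T hT u t h0 hu ht1 ht2
  · rw [abs_of_nonpos h0] at hu ⊢
    have h1 := h T hT (-u) t (by linarith) hu ht1 ht2
    have hU : 1 ≤ T + 1 := by linarith
    rw [← AA_conj good_zeta hU, neg_neg] at h1
    rw [← RCLike.norm_conj] at h1
    rw [neg_neg]
    refine le_trans (le_of_eq ?_) h1
    congr 1
    rw [map_sub, map_mul, map_sub, map_sub, map_mul, map_mul]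
    simp only [Complex.conj_ofReal, Complex.conj_conj]
    rw [← Complex.exp_conj]
    have e2 : conj (I * ((-u : ℝ) : ℂ) * (t : ℂ)) = I * u * t := by
      rw [map_mul, map_mul, conj_I, Complex.conj_ofReal, Complex.conj_ofReal]
      push_cast
      ring
    rw [e2, neg_sq]
    ring

end Pool.Agent.Q178.UMEff
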