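import Pool.Agent.Q97.UM.Stm4

set_option autoImplicit false

/-! Project UM (helper97), job JEN: Jensen's bound for the number of zeros of zeta in a disc, through a mollifier. -/

namespace Pool.Agent.Q178.UM.JEN

open Filter Topology MeasureTheory Complex Set Metric Real MeromorphicOn
open Pool.Agent.Q97.UM

theorem zeta_an {z : ℂ} (hz : z ≠ 1) : AnalyticAt ℂ riemannZeta z := by
  apply DifferentiableOn.analyticAt (s := {1}ᶜ)
  · intro w hw
    exact (differentiableAt_riemannZeta hw).differentiableWithinAt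
  · exact isOpen_compl_singleton.mem_nhds hz

/-- Jensen's inequality for the logarithm on a circle -/
theorem log_mean {f : ℂ → ℂ} {c : ℂ} {R : ℝ} (hR : 0 < R) (hf : AnalyticOnNhd ℂ f (closedBall c |R|)) :
    circleAverage (Real.log ‖f ·‖) c R ≤
      1 / 2 * Real.log (1 + 1 / (2 * π) * ∫ φ in (0:ℝ)..(2 * π), ‖f (c + R * cexp (φ * I))‖ ^ 2) := by
  have hcm : ∀ φ : ℝ, circleMap c R φ = c + R * cexp (φ * I) := fun φ => rfl
  have hmem : ∀ φ : ℝ, circleMap c R φ ∈ closedBall c |R| := fun φ => by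
    rw [abs_of_pos hR]
    exact circleMap_mem_closedBall c hR.le φ
  have hcont : Continuous fun φ : ℝ => f (circleMap c R φ) := by
    rw [continuous_iff_continuousAt]
    intro φ
    exact ContinuousAt.comp (f := fun φ : ℝ => circleMap c R φ) (hf _ (hmem φ)).continuousAt
      (continuous_circleMap c R).continuousAt
  set J : ℝ := ∫ φ in (0:ℝ)..(2 * π), ‖f (c + R * cexp (φ * I))‖ ^ 2 with hJ
  have hJ0 : 0 ≤ J := intervalIntegral.integral_nonneg (by positivity) fun φ _ => by positivity
  have hM : 0 < 1 + 1 / (2 * π) * J := by positivity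
  set M : ℝ := 1 + 1 / (2 * π) * J with hMdef
  have hci : CircleIntegrable (Real.log ‖f ·‖) c R := by
    apply MeromorphicOn.circleIntegrable_log_norm
    intro z hz
    exact (hf z (sphere_subset_closedBall hz)).meromorphicAt
  have hc1 : Continuous fun φ : ℝ => ‖f (circleMap c R φ)‖ ^ 2 := hcont.norm.pow 2
  have hc2 : Continuous fun φ : ℝ => 1 / 2 * (Real.log M + (1 + ‖f (circleMap c R φ)‖ ^ 2) / M - 1) :=
    continuous_const.mul ((continuous_const.add ((continuous_const.add hc1).div_const M)).sub continuous_const)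
  have hc3 : Continuous fun φ : ℝ => 1 / (2 * M) * ‖f (c + R * cexp (φ * I))‖ ^ 2 := continuous_const.mul hc1
  unfold circleAverage
  rw [smul_eq_mul]
  have hint : ∫ φ in (0:ℝ)..(2 * π), Real.log ‖f (circleMap c R φ)‖ ≤
      ∫ φ in (0:ℝ)..(2 * π), 1 / 2 * (Real.log M + (1 + ‖f (circleMap c R φ)‖ ^ 2) / M - 1) := by
    apply intervalIntegral.integral_mono (by positivity)
    · exact hci
    · exact hc2.intervalIntegrable _ _
    · intro φ
      show Real.log ‖f (circleMap c R φ)‖ ≤ _
      set w : ℝ := ‖f (circleMap c R φ)‖ with hw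
      have hw0 : 0 ≤ w := norm_nonneg _
      have h1 : Real.log w ≤ 1 / 2 * Real.log (1 + w ^ 2) := by
        rcases hw0.eq_or_lt with h | h
        · rw [← h]
          norm_num
        · have h2 : Real.log (w ^ 2) ≤ Real.log (1 + w ^ 2) := Real.log_le_log (by positivity) (by linarith)
          rw [Real.log_pow] at h2
          push_cast at h2
          linarith
      have h2 : Real.log (1 + w ^ 2) ≤ Real.log M + (1 + w ^ 2) / M - 1 := by
        have h3 := Real.log_le_sub_one_of_pos (show 0 < (1 + w ^ 2) / M by positivity)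
        rw [Real.log_div (by positivity) hM.ne'] at h3
        linarith
      linarith
  have hval : ∫ φ in (0:ℝ)..(2 * π), 1 / 2 * (Real.log M + (1 + ‖f (circleMap c R φ)‖ ^ 2) / M - 1) =
      2 * π * (1 / 2 * Real.log M) := by
    have e1 : ∀ φ : ℝ, 1 / 2 * (Real.log M + (1 + ‖f (circleMap c R φ)‖ ^ 2) / M - 1) =
        1 / 2 * (Real.log M + 1 / M - 1) + 1 / (2 * M) * ‖f (c + R * cexp (φ * I))‖ ^ 2 := by
      intro φ
      rw [hcm]
      field_simp
      ring
    rw [intervalIntegral.integral_congr (g := fun φ : ℝ => 1 / 2 * (Real.log M + 1 / M - 1) +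
      1 / (2 * M) * ‖f (c + R * cexp (φ * I))‖ ^ 2) (fun φ _ => e1 φ),
      intervalIntegral.integral_add intervalIntegrable_const
        (hc3.intervalIntegrable _ _),
      intervalIntegral.integral_const, intervalIntegral.integral_const_mul, ← hJ, smul_eq_mul]
    have hJM : J = 2 * π * (M - 1) := by
      rw [hMdef]
      field_simp
      ring
    rw [hJM]
    field_simp
    ring
  rw [hval] at hint
  have hpi : (0:ℝ) < 2 * π := by positivity
  calc (2 * π)⁻¹ * ∫ φ in (0:ℝ)..(2 * π), Real.log ‖f (circleMap c R φ)‖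
      ≤ (2 * π)⁻¹ * (2 * π * (1 / 2 * Real.log M)) := mul_le_mul_of_nonneg_left hint (by positivity)
    _ = 1 / 2 * Real.log M := by field_simp

theorem t_JEN : S_JEN := by
  intro g s₀ r hg hr him hs0 S hS hfin
  set f : ℂ → ℂ := fun s => riemannZeta s * g s with hf
  have h2r : (0:ℝ) < 2 * r := by positivity
  have hne : ∀ z ∈ closedBall s₀ |2 * r|, z ≠ 1 := by
    intro z hz h1
    subst h1
    rw [mem_closedBall, Complex.dist_eq, abs_of_pos h2r] at hz
    have h3 := Complex.abs_im_le_norm (1 - s₀)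
    rw [Complex.sub_im, Complex.one_im, zero_sub, abs_neg] at h3
    linarith
  have han : AnalyticOnNhd ℂ f (closedBall s₀ |2 * r|) := by
    intro z hz
    exact (zeta_an (hne z hz)).mul (hg.analyticAt z)
  have h0 : f s₀ ≠ 0 := by
    intro h
    have h1 : 1 / 2 ≤ ‖f s₀‖ := hs0
    rw [h, norm_zero] at h1
    norm_num at h1
  have hc0 : s₀ ∈ closedBall s₀ |2 * r| := mem_closedBall_self (abs_nonneg _)
  have hJ := han.circleAverage_log_norm h2r.ne' h0
  have hL := log_mean h2r han
  -- finite orders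
  have hpre : IsPreconnected (closedBall s₀ |2 * r|) := (convex_closedBall _ _).isPreconnected
  have hfo : ∀ z ∈ closedBall s₀ |2 * r|, analyticOrderAt f z ≠ ⊤ := by
    intro z hz
    apply han.analyticOrderAt_ne_top_of_isPreconnected hpre hc0 hz
    rw [(han s₀ hc0).analyticOrderAt_eq_zero.2 h0]
    exact ENat.zero_ne_top
  have hdv : ∀ z ∈ closedBall s₀ |2 * r|, ((divisor f (closedBall s₀ |2 * r|) z : ℤ) : ℝ) =
      (analyticOrderNatAt f z : ℝ) := by
    intro z hz
    rw [AnalyticOnNhd.divisor_apply han hz]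
    unfold analyticOrderNatAt
    obtain ⟨n, hn⟩ := ENat.ne_top_iff_exists.1 (hfo z hz)
    rw [← hn]
    simp
  set h : ℂ → ℝ := fun u => ((divisor f (closedBall s₀ |2 * r|) u : ℤ) : ℝ) * Real.log (2 * r * ‖s₀ - u‖⁻¹) with hh
  have hnn : ∀ u, 0 ≤ h u := by
    intro u
    by_cases hu : u ∈ closedBall s₀ |2 * r|
    · have h1 : 0 ≤ ((divisor f (closedBall s₀ |2 * r|) u : ℤ) : ℝ) := by
        rw [hdv u hu]
        positivity
      refine mul_nonneg h1 ?_
      rcases eq_or_ne u s₀ with rfl | hus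
      · simp
      · apply Real.log_nonneg
        have h2 : 0 < ‖s₀ - u‖ := norm_pos_iff.2 (sub_ne_zero.2 hus.symm)
        rw [← div_eq_mul_inv, one_le_div h2, ← Complex.dist_eq, dist_comm]
        rw [mem_closedBall, abs_of_pos h2r] at hu
        exact hu
    · rw [hh]
      simp only
      rw [Function.locallyFinsuppWithin.apply_eq_zero_of_notMem _ hu]
      simp
  have hS1 : ∀ ρ ∈ S, (analyticOrderNatAt riemannZeta ρ : ℝ) * Real.log 2 ≤ h ρ := by
    intro ρ hρ
    obtain ⟨hz, hd⟩ := hS ρ hρ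
    have hmem : ρ ∈ closedBall s₀ |2 * r| := by
      rw [mem_closedBall, Complex.dist_eq, abs_of_pos h2r]
      linarith
    have hρs : ρ ≠ s₀ := by
      rintro rfl
      apply h0
      show riemannZeta ρ * g ρ = 0
      rw [hz, zero_mul]
    have hz1 := zeta_an (hne ρ hmem)
    have hg1 := hg.analyticAt ρ
    have ho : analyticOrderAt f ρ = analyticOrderAt riemannZeta ρ + analyticOrderAt g ρ :=
      analyticOrderAt_mul hz1 hg1
    have hfin1 := hfo ρ hmem
    rw [ho] at hfin1
    have ha : analyticOrderAt riemannZeta ρ ≠ ⊤ := fun h => hfin1 (by rw [h, top_add])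
    have hb : analyticOrderAt g ρ ≠ ⊤ := fun h => hfin1 (by rw [h, add_top])
    have hn : analyticOrderNatAt f ρ = analyticOrderNatAt riemannZeta ρ + analyticOrderNatAt g ρ :=
      analyticOrderNatAt_mul hz1 hg1 ha hb
    have h1 : (analyticOrderNatAt riemannZeta ρ : ℝ) ≤ (analyticOrderNatAt f ρ : ℝ) := by
      rw [hn]
      push_cast
      linarith [Nat.cast_nonneg (α := ℝ) (analyticOrderNatAt g ρ)]
    have h2 : Real.log 2 ≤ Real.log (2 * r * ‖s₀ - ρ‖⁻¹) := by
      apply Real.log_le_log (by norm_num)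
      have h3 : 0 < ‖s₀ - ρ‖ := norm_pos_iff.2 (sub_ne_zero.2 hρs.symm)
      rw [← div_eq_mul_inv, le_div_iff₀ h3, norm_sub_rev]
      linarith
    show _ ≤ ((divisor f (closedBall s₀ |2 * r|) ρ : ℤ) : ℝ) * Real.log (2 * r * ‖s₀ - ρ‖⁻¹)
    rw [hdv ρ hmem]
    exact mul_le_mul h1 h2 (Real.log_nonneg (by norm_num)) (by positivity)
  have hsupp : (Function.support h).Finite := by
    refine ((divisor f (closedBall s₀ |2 * r|)).finiteSupport (isCompact_closedBall _ _)).subset ?_
    intro u hu hu2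
    apply hu
    show ((divisor f (closedBall s₀ |2 * r|) u : ℤ) : ℝ) * _ = 0
    rw [hu2]
    simp
  have hsum : (∑ᶠ ρ ∈ S, (analyticOrderNatAt riemannZeta ρ : ℝ)) * Real.log 2 ≤ ∑ᶠ u, h u := by
    classical
    rw [finsum_mem_eq_finite_toFinset_sum _ hfin, Finset.sum_mul,
      finsum_eq_sum_of_support_subset (s := hsupp.toFinset ∪ hfin.toFinset) h (by
        intro x hx
        simp only [Finset.coe_union, Finite.coe_toFinset]
        exact Or.inl hx)]
    calc ∑ ρ ∈ hfin.toFinset, (analyticOrderNatAt riemannZeta ρ : ℝ) * Real.log 2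
        ≤ ∑ ρ ∈ hfin.toFinset, h ρ := Finset.sum_le_sum fun ρ hρ => hS1 ρ (by simpa using hρ)
      _ ≤ _ := Finset.sum_le_sum_of_subset_of_nonneg Finset.subset_union_right fun u _ _ => hnn u
  have hlog0 : -Real.log 2 ≤ Real.log ‖f s₀‖ := by
    have h1 : Real.log (1 / 2) ≤ Real.log ‖f s₀‖ := Real.log_le_log (by norm_num) hs0
    rw [one_div, Real.log_inv] at h1
    exact h1
  have hJ2 : circleAverage (Real.log ‖f ·‖) s₀ (2 * r) = ∑ᶠ u, h u + Real.log ‖f s₀‖ := hJ
  push_cast at hL
  have hL2 : circleAverage (Real.log ‖f ·‖) s₀ (2 * r) ≤ 1 / 2 * Real.log (1 + 1 / (2 * π) *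
      ∫ φ in (0 : ℝ)..(2 * π), ‖riemannZeta (s₀ + 2 * r * cexp (φ * I)) * g (s₀ + 2 * r * cexp (φ * I))‖ ^ 2) := hL
  linarith

end Pool.Agent.Q178.UM.JEN
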