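import Pool.Agent.Q97.UM.Stm
import Pool.Agent.H370R2.DirGood

set_option autoImplicit false

/-! Project UM (helper97), job PH: the phase of zeta on the critical line. -/

namespace Pool.Agent.Q178.UM.PH

open Complex Filter Topology Set
open Pool.Agent.Q97.UM

lemma GammaR_conj (s : ℂ) : Gammaℝ ((starRingEnd ℂ) s) = (starRingEnd ℂ) (Gammaℝ s) := by
  rw [Gammaℝ_def, Gammaℝ_def, map_mul, ← Complex.Gamma_conj]
  congr 1
  · have h := Complex.cpow_conj (Real.pi : ℂ) (-s / 2) (by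
      rw [Complex.arg_ofReal_of_nonneg Real.pi_pos.le]; exact Real.pi_pos.ne)
    rw [Complex.conj_ofReal] at h
    rw [← h]
    congr 1
    rw [map_div₀, map_neg, Complex.conj_ofNat]
  · congr 1
    rw [map_div₀, Complex.conj_ofNat]

lemma line_ne_zero (t : ℝ) : (1 / 2 + t * Complex.I : ℂ) ≠ 0 := by
  intro h
  have := congrArg Complex.re h
  norm_num at this

lemma GammaR_line_ne (t : ℝ) : Gammaℝ (1 / 2 + t * Complex.I) ≠ 0 := by
  apply Gammaℝ_ne_zero_of_re_pos
  norm_num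

lemma line_conj (t : ℝ) : (starRingEnd ℂ) (1 / 2 + t * Complex.I : ℂ) = 1 - (1 / 2 + t * Complex.I) := by
  apply Complex.ext
  · simp
    norm_num
  · simp

lemma prod_eq (t : ℝ) : Gammaℝ (1 / 2 + t * Complex.I) * riemannZeta (1 / 2 + t * Complex.I) =
    completedRiemannZeta (1 / 2 + t * Complex.I) := by
  rw [riemannZeta_def_of_ne_zero (line_ne_zero t), mul_div_cancel₀ _ (GammaR_line_ne t)]

lemma completed_conj (t : ℝ) : (starRingEnd ℂ) (completedRiemannZeta (1 / 2 + t * Complex.I)) =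
    completedRiemannZeta (1 / 2 + t * Complex.I) := by
  have h1 : completedRiemannZeta ((starRingEnd ℂ) (1 / 2 + t * Complex.I : ℂ)) =
      (starRingEnd ℂ) (completedRiemannZeta (1 / 2 + t * Complex.I)) := by
    rw [← prod_eq t, map_mul, ← GammaR_conj, ← riemannZeta_conj]
    have h0 : (starRingEnd ℂ) (1 / 2 + t * Complex.I : ℂ) ≠ 0 := by
      intro h
      have := congrArg Complex.re h
      norm_num at this
    rw [riemannZeta_def_of_ne_zero h0]
    have h2 : Gammaℝ ((starRingEnd ℂ) (1 / 2 + t * Complex.I : ℂ)) ≠ 0 := by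
      apply Gammaℝ_ne_zero_of_re_pos
      norm_num
    rw [mul_div_cancel₀ _ h2]
  rw [← h1, line_conj, completedRiemannZeta_one_sub]

lemma line_cont : Continuous fun t : ℝ => (1 / 2 + t * Complex.I : ℂ) := by fun_prop

lemma GammaR_line_cont : Continuous fun t : ℝ => Gammaℝ (1 / 2 + t * Complex.I) := by
  have h : Continuous fun t : ℝ => (Gammaℝ (1 / 2 + t * Complex.I))⁻¹ :=
    differentiable_Gammaℝ_inv.continuous.comp line_cont
  have h2 : Continuous fun t : ℝ => ((Gammaℝ (1 / 2 + t * Complex.I))⁻¹)⁻¹ :=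
    h.inv₀ fun t => inv_ne_zero (GammaR_line_ne t)
  simpa using h2

/-- the phase -/
noncomputable def ph (t : ℝ) : ℂ := Gammaℝ (1 / 2 + t * Complex.I) / (‖Gammaℝ (1 / 2 + t * Complex.I)‖ : ℂ)

lemma ph_norm (t : ℝ) : ‖ph t‖ = 1 := by
  unfold ph
  rw [norm_div, Complex.norm_real, norm_norm, div_self (norm_ne_zero_iff.2 (GammaR_line_ne t))]

lemma ph_cont : Continuous ph := by
  unfold ph
  refine Continuous.div GammaR_line_cont (Complex.continuous_ofReal.comp GammaR_line_cont.norm) fun t => ?_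
  have := norm_ne_zero_iff.2 (GammaR_line_ne t)
  exact_mod_cast this

lemma ph_real (t : ℝ) : (ph t * riemannZeta (1 / 2 + t * I)).im = 0 := by
  have h1 : ph t * riemannZeta (1 / 2 + t * Complex.I) =
      completedRiemannZeta (1 / 2 + t * Complex.I) / (‖Gammaℝ (1 / 2 + t * Complex.I)‖ : ℂ) := by
    rw [← prod_eq t]
    unfold ph
    ring
  rw [h1]
  have h2 := completed_conj t
  rw [Complex.conj_eq_iff_im] at h2
  rw [Complex.div_ofReal_im, h2, zero_div]

/-- logarithmic derivative -/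
noncomputable def L (t : ℝ) : ℂ := logDeriv Gammaℝ (1 / 2 + t * Complex.I)

lemma G_deriv (t : ℝ) : HasDerivAt (fun u : ℝ => Gammaℝ (1 / 2 + u * Complex.I))
    (I * L t * Gammaℝ (1 / 2 + t * Complex.I)) t := by
  have h0 : DifferentiableAt ℂ Gammaℝ (1 / 2 + t * Complex.I) := by
    have h1 : DifferentiableAt ℂ (fun s => (Gammaℝ s)⁻¹) (1 / 2 + t * Complex.I) :=
      differentiable_Gammaℝ_inv _
    have h2 := h1.inv (inv_ne_zero (GammaR_line_ne t))
    have e : (fun s => (Gammaℝ s)⁻¹)⁻¹ = Gammaℝ := by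
      funext z
      simp
    rwa [e] at h2
  have h1 : HasDerivAt (fun u : ℝ => (1 / 2 + u * Complex.I : ℂ)) I t := by
    have h2 : HasDerivAt (fun u : ℝ => (u : ℂ)) 1 t := Complex.ofRealCLM.hasDerivAt
    have h3 := (h2.mul_const Complex.I).const_add (1 / 2 : ℂ)
    simpa using h3
  have h2 := h0.hasDerivAt.scomp t h1
  have e : I • deriv Gammaℝ (1 / 2 + t * Complex.I) = I * L t * Gammaℝ (1 / 2 + t * Complex.I) := by
    unfold L
    rw [logDeriv_apply, smul_eq_mul, mul_assoc, div_mul_cancel₀ _ (GammaR_line_ne t)]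
  rw [e] at h2
  exact h2

lemma ph_deriv (t : ℝ) : HasDerivAt ph (I * ((L t).re : ℂ) * ph t) t := by
  have hG := G_deriv t
  set G : ℝ → ℂ := fun u : ℝ => Gammaℝ (1 / 2 + u * Complex.I) with hGdef
  have hGt : G t ≠ 0 := GammaR_line_ne t
  have hn0 : ‖G t‖ ≠ 0 := norm_ne_zero_iff.2 hGt
  have h1 : HasDerivAt (fun u => ‖G u‖ ^ 2) (-(2 * (L t).im * ‖G t‖ ^ 2)) t := by
    have h2 := hG.norm_sq
    have e : 2 * inner ℝ (G t) (I * L t * G t) = -(2 * (L t).im * ‖G t‖ ^ 2) := by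
      rw [Complex.inner]
      have e1 : I * L t * G t * (starRingEnd ℂ) (G t) = I * L t * ((‖G t‖ ^ 2 : ℝ) : ℂ) := by
        have : (starRingEnd ℂ) (G t) * G t = ((‖G t‖ ^ 2 : ℝ) : ℂ) := by
          rw [mul_comm, Complex.mul_conj, Complex.normSq_eq_norm_sq]
        rw [← this]
        ring
      rw [e1, Complex.re_mul_ofReal]
      simp
      ring
    rw [← e]
    exact h2
  have h3 : HasDerivAt (fun u => ‖G u‖) (-((L t).im * ‖G t‖)) t := by
    have h4 := h1.sqrt (pow_ne_zero 2 hn0)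
    have e1 : (fun u => √(‖G u‖ ^ 2)) = fun u => ‖G u‖ := by
      funext u
      exact Real.sqrt_sq (norm_nonneg _)
    rw [e1, Real.sqrt_sq (norm_nonneg _)] at h4
    have e2 : -(2 * (L t).im * ‖G t‖ ^ 2) / (2 * ‖G t‖) = -((L t).im * ‖G t‖) := by
      field_simp
    rwa [e2] at h4
  have h5 : HasDerivAt (fun u => ((‖G u‖ : ℝ) : ℂ)) ((-((L t).im * ‖G t‖) : ℝ) : ℂ) t := h3.ofReal_comp
  have h6 := hG.div h5 (by exact_mod_cast hn0)
  have e3 : (I * L t * G t * ((‖G t‖ : ℝ) : ℂ) - G t * ((-((L t).im * ‖G t‖) : ℝ) : ℂ)) / ((‖G t‖ : ℝ) : ℂ) ^ 2 =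
      I * ((L t).re : ℂ) * ph t := by
    unfold ph
    change _ = I * ((L t).re : ℂ) * (G t / ((‖G t‖ : ℝ) : ℂ))
    have hn1 : ((‖G t‖ : ℝ) : ℂ) ≠ 0 := by exact_mod_cast hn0
    have e4 : L t = ((L t).re : ℂ) + ((L t).im : ℂ) * I := (Complex.re_add_im _).symm
    have e5 : I * L t = I * ((L t).re : ℂ) - ((L t).im : ℂ) := by
      conv_lhs => rw [e4]
      have := Complex.I_mul_I
      linear_combination ((L t).im : ℂ) * this
    push_cast
    rw [e5]
    field_simp
    ring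
  rw [← e3]
  exact h6

theorem t_PH : S_PH := by
  obtain ⟨C, hC0, hC⟩ := H370.DL.logDeriv_Gammaℝ_bound
  refine ⟨ph, C + 1, 2, ph_norm, ph_cont, ph_real, ?_⟩
  intro T hT t y h1 h2 hy
  set ℓ := Real.log T / 2 with hℓ
  have hT0 : 0 < T := by linarith
  set F : ℝ → ℂ := fun u => ph u * cexp (-(I * (u * ℓ : ℝ))) with hF
  have hF' : ∀ u : ℝ, HasDerivAt F (I * (((L u).re - ℓ : ℝ) : ℂ) * F u) u := by
    intro u
    have g1 : HasDerivAt (fun v : ℝ => cexp (-(I * (v * ℓ : ℝ)))) (cexp (-(I * (u * ℓ : ℝ))) * (-(I * ℓ))) u := by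
      have g2 : HasDerivAt (fun v : ℝ => -(I * ((v * ℓ : ℝ) : ℂ))) (-(I * ℓ)) u := by
        have g3 : HasDerivAt (fun v : ℝ => ((v * ℓ : ℝ) : ℂ)) ((ℓ : ℝ) : ℂ) u := by
          have := ((hasDerivAt_id u).mul_const ℓ).ofReal_comp
          simpa using this
        exact (g3.const_mul I).neg
      exact g2.cexp
    have g4 := (ph_deriv u).mul g1
    have e : I * ((L u).re : ℂ) * ph u * cexp (-(I * (u * ℓ : ℝ))) +
        ph u * (cexp (-(I * (u * ℓ : ℝ))) * (-(I * ℓ))) = I * (((L u).re - ℓ : ℝ) : ℂ) * F u := by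
      rw [hF]
      push_cast
      ring
    rw [e] at g4
    exact g4
  have hFn : ∀ u, ‖F u‖ = 1 := by
    intro u
    rw [hF]
    simp only
    rw [norm_mul, ph_norm, one_mul, Complex.norm_exp]
    simp
  have hb : ∀ u ∈ Icc (T / 2) (5 * T / 2), ‖I * (((L u).re - ℓ : ℝ) : ℂ) * F u‖ ≤ C + 1 := by
    intro u hu
    have hu0 : 0 < u := by linarith [hu.1]
    have hu1 : 1 ≤ u := by linarith [hu.1]
    rw [norm_mul, hFn, mul_one, norm_mul, Complex.norm_I, one_mul, Complex.norm_real, Real.norm_eq_abs]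
    have g1 := hC (1 / 2 + u * I) (by simp; norm_num) (by simp; norm_num) (by
      have : (1 / 2 + (u:ℂ) * I).im = u := by simp
      rw [this, abs_of_pos hu0]
      exact hu1)
    have e1 : (1 / 2 + (u:ℂ) * I).im = u := by simp
    rw [e1, abs_of_pos hu0] at g1
    have g2 := (Complex.abs_re_le_norm _).trans g1
    have e2 : (logDeriv Gammaℝ (1 / 2 + (u:ℂ) * I) - 1 / 2 * ((Real.log u : ℝ) : ℂ)).re = (L u).re - Real.log u / 2 := by
      unfold L
      rw [Complex.sub_re]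
      have : (1 / 2 * ((Real.log u : ℝ) : ℂ)).re = Real.log u / 2 := by
        rw [show (1 / 2 * ((Real.log u : ℝ) : ℂ)) = ((Real.log u / 2 : ℝ) : ℂ) by push_cast; ring, Complex.ofReal_re]
      rw [this]
    rw [e2] at g2
    have g3 : |Real.log u / 2 - ℓ| ≤ 1 := by
      have e3 : Real.log u / 2 - ℓ = Real.log (u / T) / 2 := by
        rw [hℓ, Real.log_div hu0.ne' hT0.ne']
        ring
      rw [e3, abs_div, abs_two, div_le_iff₀ (by norm_num)]
      have g4 : u / T ≤ 5 / 2 := by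
        rw [div_le_iff₀ hT0]; linarith [hu.2]
      have g5 : 1 / 2 ≤ u / T := by
        rw [le_div_iff₀ hT0]; linarith [hu.1]
      have g6 : Real.log (u / T) ≤ u / T - 1 := Real.log_le_sub_one_of_pos (by positivity)
      have g7 : 1 - (u / T)⁻¹ ≤ Real.log (u / T) := Real.one_sub_inv_le_log_of_pos (by positivity)
      have g8 : (u / T)⁻¹ ≤ 2 := by
        rw [inv_le_comm₀ (by positivity) (by norm_num)]
        norm_num at g5 ⊢
        exact g5
      rw [abs_le]
      constructor <;> linarith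
    have e4 : (L u).re - ℓ = ((L u).re - Real.log u / 2) + (Real.log u / 2 - ℓ) := by ring
    rw [e4]
    exact (abs_add_le _ _).trans (add_le_add g2 g3)
  rw [abs_le] at hy
  have hmv := (convex_Icc (T / 2) (5 * T / 2)).norm_image_sub_le_of_norm_hasDerivWithin_le
    (fun u _ => (hF' u).hasDerivWithinAt) hb (x := t) (y := t + y) ⟨by linarith, by linarith⟩
    ⟨by linarith [hy.1], by linarith [hy.2]⟩
  have e5 : ph (t + y) - ph t * cexp (I * (y * ℓ : ℝ)) = cexp (I * ((t + y) * ℓ : ℝ)) * (F (t + y) - F t) := by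
    rw [hF]
    simp only
    have e6 : cexp (I * ((t + y) * ℓ : ℝ)) * (ph (t + y) * cexp (-(I * ((t + y) * ℓ : ℝ)))) = ph (t + y) := by
      have : cexp (I * ((t + y) * ℓ : ℝ)) * cexp (-(I * ((t + y) * ℓ : ℝ))) = 1 := by
        rw [← Complex.exp_add, add_neg_cancel, Complex.exp_zero]
      calc _ = ph (t + y) * (cexp (I * ((t + y) * ℓ : ℝ)) * cexp (-(I * ((t + y) * ℓ : ℝ)))) := by ring
        _ = _ := by rw [this, mul_one]
    have e7 : cexp (I * ((t + y) * ℓ : ℝ)) * (ph t * cexp (-(I * (t * ℓ : ℝ)))) = ph t * cexp (I * (y * ℓ : ℝ)) := by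
      have : cexp (I * ((t + y) * ℓ : ℝ)) * cexp (-(I * (t * ℓ : ℝ))) = cexp (I * (y * ℓ : ℝ)) := by
        rw [← Complex.exp_add]
        congr 1
        push_cast
        ring
      calc _ = ph t * (cexp (I * ((t + y) * ℓ : ℝ)) * cexp (-(I * (t * ℓ : ℝ)))) := by ring
        _ = _ := by rw [this]
    rw [mul_sub, e6, e7]
  rw [e5, norm_mul, Complex.norm_exp]
  have e8 : (I * (((t + y) * ℓ : ℝ) : ℂ)).re = 0 := by simp
  rw [e8, Real.exp_zero, one_mul]
  refine hmv.trans (le_of_eq ?_)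
  rw [add_sub_cancel_left, Real.norm_eq_abs]

end Pool.Agent.Q178.UM.PH
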