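import Pool.Agent.Q97.UM.Stm
import Pool.Agent.H370R2.NT

set_option autoImplicit false

/-! Project UM (helper97), job QL: the gcd form with the factor `log (gcd² / (h k))`. -/

namespace Pool.Agent.Q178.UM.QL

open Finset
open Pool.Agent.Q97.UM

/-- the diagonal variables -/
noncomputable def zz (M : ℕ) (a : ℕ → ℂ) (d : ℕ) : ℂ := ∑ h ∈ (Icc 1 M).filter (fun h => d ∣ h), a h / h

/-- diagonalisation -/
theorem diag (M : ℕ) (a b : ℕ → ℂ) (g w : ℕ → ℝ) (hg : ∀ n, 1 ≤ n → ∑ d ∈ n.divisors, g d = w n) :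
    ∑ h ∈ Icc 1 M, ∑ k ∈ Icc 1 M, a h * (starRingEnd ℂ) (b k) * ((w (Nat.gcd h k) / ((h : ℝ) * k) : ℝ) : ℂ) =
      ∑ d ∈ Icc 1 M, (g d : ℂ) * (zz M a d * (starRingEnd ℂ) (zz M b d)) := by
  have h1 : ∀ h ∈ Icc 1 M, ∀ k ∈ Icc 1 M, ((w (Nat.gcd h k) : ℝ) : ℂ) =
      ∑ d ∈ Icc 1 M, if d ∣ h ∧ d ∣ k then (g d : ℂ) else 0 := by
    intro h hh k hk
    rw [mem_Icc] at hh hk
    have hgcd : 1 ≤ Nat.gcd h k := Nat.gcd_pos_of_pos_left k (by omega)
    rw [← hg _ hgcd, ← sum_filter]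
    push_cast
    apply sum_congr _ (fun _ _ => rfl)
    ext d
    rw [Nat.mem_divisors, mem_filter, mem_Icc, Nat.dvd_gcd_iff]
    constructor
    · rintro ⟨h2, _⟩
      have := Nat.le_of_dvd (by omega) h2.1
      exact ⟨⟨Nat.pos_of_dvd_of_pos h2.1 (by omega), by omega⟩, h2⟩
    · rintro ⟨_, h2⟩
      exact ⟨h2, by omega⟩
  have h2 : ∀ d ∈ Icc 1 M, (g d : ℂ) * (zz M a d * (starRingEnd ℂ) (zz M b d)) =
      ∑ h ∈ Icc 1 M, ∑ k ∈ Icc 1 M, if d ∣ h ∧ d ∣ k then (g d : ℂ) * (a h / h * ((starRingEnd ℂ) (b k) / k)) else 0 := by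
    intro d _
    unfold zz
    rw [map_sum, sum_mul_sum, mul_sum, sum_filter]
    apply sum_congr rfl
    intro h _
    rw [sum_filter]
    by_cases h3 : d ∣ h
    · rw [if_pos h3, mul_sum]
      apply sum_congr rfl
      intro k _
      by_cases h4 : d ∣ k
      · rw [if_pos h4, if_pos ⟨h3, h4⟩, map_div₀, Complex.conj_natCast]
      · rw [if_neg h4, if_neg (fun h => h4 h.2), mul_zero]
    · rw [if_neg h3]
      symm
      apply sum_eq_zero
      intro k _
      rw [if_neg (fun h => h3 h.1)]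
  have e3 : ∑ d ∈ Icc 1 M, ∑ h ∈ Icc 1 M, ∑ k ∈ Icc 1 M,
        (if d ∣ h ∧ d ∣ k then (g d : ℂ) * (a h / h * ((starRingEnd ℂ) (b k) / k)) else 0) =
      ∑ h ∈ Icc 1 M, ∑ k ∈ Icc 1 M, ∑ d ∈ Icc 1 M,
        (if d ∣ h ∧ d ∣ k then (g d : ℂ) * (a h / h * ((starRingEnd ℂ) (b k) / k)) else 0) := by
    rw [sum_comm]
    apply sum_congr rfl
    intro h _
    rw [sum_comm]
  rw [sum_congr rfl h2, e3]
  apply sum_congr rfl
  intro h hh
  apply sum_congr rfl
  intro k hk
  have e : ((w (Nat.gcd h k) / ((h : ℝ) * k) : ℝ) : ℂ) = ((w (Nat.gcd h k) : ℝ) : ℂ) / ((h : ℂ) * k) := by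
    push_cast
    rfl
  rw [e, h1 h hh k hk, sum_div, mul_sum]
  apply sum_congr rfl
  intro d _
  split_ifs
  · ring
  · ring

/-- Euler's function as an arithmetic function with real values -/
noncomputable def ph : ArithmeticFunction ℝ := ⟨fun n => (Nat.totient n : ℝ), by simp⟩

/-- the coefficients of `n log n` -/
noncomputable def gg (d : ℕ) : ℝ := (Nat.totient d : ℝ) * Real.log d +
  ∑ x ∈ d.divisorsAntidiagonal, (Nat.totient x.1 : ℝ) * ArithmeticFunction.vonMangoldt x.2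

theorem sum_phi (n : ℕ) : ∑ d ∈ n.divisors, (Nat.totient d : ℝ) = n := by
  have := Nat.sum_totient n
  exact_mod_cast this

theorem leib (f g : ArithmeticFunction ℝ) :
    (f * g).pmul ArithmeticFunction.log = (f.pmul ArithmeticFunction.log) * g + f * (g.pmul ArithmeticFunction.log) := by
  ext n
  rw [ArithmeticFunction.add_apply, ArithmeticFunction.pmul_apply, ArithmeticFunction.mul_apply,
    ArithmeticFunction.mul_apply, ArithmeticFunction.mul_apply, sum_mul, ← sum_add_distrib]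
  apply sum_congr rfl
  intro x hx
  rw [Nat.mem_divisorsAntidiagonal] at hx
  have h1 : (x.1 : ℝ) ≠ 0 := by
    intro h
    have : x.1 = 0 := by exact_mod_cast h
    rw [this, zero_mul] at hx
    exact hx.2 hx.1.symm
  have h2 : (x.2 : ℝ) ≠ 0 := by
    intro h
    have : x.2 = 0 := by exact_mod_cast h
    rw [this, mul_zero] at hx
    exact hx.2 hx.1.symm
  rw [ArithmeticFunction.pmul_apply, ArithmeticFunction.pmul_apply, ArithmeticFunction.log_apply,
    ArithmeticFunction.log_apply, ArithmeticFunction.log_apply, ← hx.1]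
  push_cast
  rw [Real.log_mul h1 h2]
  ring

theorem sum_gg (n : ℕ) : ∑ d ∈ n.divisors, gg d = n * Real.log n := by
  set Z : ArithmeticFunction ℝ := ((ArithmeticFunction.zeta : ArithmeticFunction ℕ) : ArithmeticFunction ℝ) with hZ
  have h1 : ∀ m, (ph * Z) m = m := by
    intro m
    rw [hZ, ArithmeticFunction.coe_mul_zeta_apply]
    exact sum_phi m
  have h2 := leib ph Z
  have h3 : Z.pmul ArithmeticFunction.log = ArithmeticFunction.vonMangoldt * Z := by
    rw [hZ, ArithmeticFunction.vonMangoldt_mul_zeta]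
    ext m
    rw [ArithmeticFunction.pmul_apply, ArithmeticFunction.natCoe_apply, ArithmeticFunction.zeta_apply,
      ArithmeticFunction.log_apply]
    split_ifs with h
    · simp [h]
    · simp
  rw [h3, ← mul_assoc, ← add_mul] at h2
  have h4 := DFunLike.congr_fun h2 n
  rw [ArithmeticFunction.pmul_apply, h1, ArithmeticFunction.log_apply, hZ, ArithmeticFunction.coe_mul_zeta_apply] at h4
  rw [h4]
  apply sum_congr rfl
  intro d _
  rw [ArithmeticFunction.add_apply, ArithmeticFunction.pmul_apply, ArithmeticFunction.mul_apply,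
    ArithmeticFunction.log_apply]
  rfl

theorem gg_nonneg (d : ℕ) : 0 ≤ gg d := by
  unfold gg
  apply add_nonneg
  · exact mul_nonneg (Nat.cast_nonneg _) (Real.log_natCast_nonneg d)
  · exact sum_nonneg fun x _ => mul_nonneg (Nat.cast_nonneg _) ArithmeticFunction.vonMangoldt_nonneg

theorem gg_le (d : ℕ) (hd : 1 ≤ d) : gg d ≤ 2 * Real.log d * (Nat.totient d : ℝ) := by
  unfold gg
  have h1 : ∑ x ∈ d.divisorsAntidiagonal, (Nat.totient x.1 : ℝ) * ArithmeticFunction.vonMangoldt x.2 ≤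
      ∑ x ∈ d.divisorsAntidiagonal, (Nat.totient d : ℝ) * ArithmeticFunction.vonMangoldt x.2 := by
    apply sum_le_sum
    intro x hx
    rw [Nat.mem_divisorsAntidiagonal] at hx
    apply mul_le_mul_of_nonneg_right _ ArithmeticFunction.vonMangoldt_nonneg
    have h2 : x.1 ∣ d := ⟨x.2, hx.1.symm⟩
    have h3 : Nat.totient x.1 ∣ Nat.totient d := Nat.totient_dvd_of_dvd h2
    exact_mod_cast Nat.le_of_dvd (Nat.totient_pos.2 hd) h3
  have h2 : ∑ x ∈ d.divisorsAntidiagonal, (Nat.totient d : ℝ) * ArithmeticFunction.vonMangoldt x.2 =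
      (Nat.totient d : ℝ) * Real.log d := by
    rw [← mul_sum, Nat.sum_divisorsAntidiagonal' (f := fun _ b => ArithmeticFunction.vonMangoldt b),
      ArithmeticFunction.vonMangoldt_sum]
  linarith

/-- the energy -/
noncomputable def en (M : ℕ) (a : ℕ → ℂ) : ℝ := ∑ d ∈ Icc 1 M, (Nat.totient d : ℝ) * ‖zz M a d‖ ^ 2

theorem en_nonneg (M : ℕ) (a : ℕ → ℂ) : 0 ≤ en M a :=
  sum_nonneg fun _ _ => mul_nonneg (Nat.cast_nonneg _) (sq_nonneg _)

theorem QF_eq (M : ℕ) (c : ℕ → ℂ) : QF M c = (en M c : ℂ) := by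
  have h := diag M c c (fun d => (Nat.totient d : ℝ)) (fun n => (n : ℝ)) (fun n _ => sum_phi n)
  have h1 : QF M c = ∑ h ∈ Icc 1 M, ∑ k ∈ Icc 1 M, c h * (starRingEnd ℂ) (c k) *
      (((Nat.gcd h k : ℝ) / ((h : ℝ) * k) : ℝ) : ℂ) := by
    unfold QF
    apply sum_congr rfl
    intro h hh
    apply sum_congr rfl
    intro k hk
    rw [mem_Icc] at hh hk
    congr 2
    have e : (Nat.gcd h k : ℝ) * (Nat.lcm h k : ℝ) = h * k := by exact_mod_cast Nat.gcd_mul_lcm h k
    have hh0 : (0:ℝ) < h := by exact_mod_cast hh.1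
    have hk0 : (0:ℝ) < k := by exact_mod_cast hk.1
    have hl : (0:ℝ) < (Nat.lcm h k : ℝ) := by exact_mod_cast Nat.lcm_pos (by omega) (by omega)
    rw [div_eq_div_iff hl.ne' (by positivity), one_mul, e]
  rw [h1, h]
  unfold en
  push_cast
  apply sum_congr rfl
  intro d _
  rw [Complex.mul_conj, Complex.normSq_eq_norm_sq]
  push_cast
  rfl

/-- bound for the diagonal variables of `c log` -/
theorem zz_log (M : ℕ) (c : ℕ → ℂ) (d : ℕ) (hd : d ∈ Icc 1 M) :
    zz M (fun n => c n * (Real.log n : ℝ)) d = (Real.log d : ℂ) * zz M c d +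
      ∑ k ∈ Icc 1 M, (ArithmeticFunction.vonMangoldt k : ℂ) * zz M c (d * k) := by
  rw [mem_Icc] at hd
  have h1 : ∀ h ∈ (Icc 1 M).filter (fun h => d ∣ h), c h * (Real.log h : ℝ) / (h : ℂ) =
      (Real.log d : ℂ) * (c h / h) + ∑ k ∈ Icc 1 M, if d * k ∣ h then (ArithmeticFunction.vonMangoldt k : ℂ) * (c h / h) else 0 := by
    intro h hh
    rw [mem_filter, mem_Icc] at hh
    obtain ⟨⟨hh1, hhM⟩, e, rfl⟩ := hh
    have he : 1 ≤ e := Nat.pos_of_ne_zero (by
      rintro rfl
      omega)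
    have hd0 : (d : ℝ) ≠ 0 := by
      have : (0:ℝ) < d := by exact_mod_cast hd.1
      exact this.ne'
    have he0 : (e : ℝ) ≠ 0 := by
      have : (0:ℝ) < e := by exact_mod_cast he
      exact this.ne'
    have h2 : Real.log ((d * e : ℕ) : ℝ) = Real.log d + ∑ k ∈ Icc 1 M, if d * k ∣ d * e then ArithmeticFunction.vonMangoldt k else 0 := by
      rw [Nat.cast_mul, Real.log_mul hd0 he0]
      congr 1
      rw [← ArithmeticFunction.vonMangoldt_sum, ← sum_filter]
      apply sum_congr _ (fun _ _ => rfl)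
      ext k
      rw [Nat.mem_divisors, mem_filter, mem_Icc, Nat.mul_dvd_mul_iff_left (by omega)]
      constructor
      · rintro ⟨h3, _⟩
        have h4 := Nat.le_of_dvd (by omega) h3
        have h5 : e ≤ d * e := Nat.le_mul_of_pos_left e (by omega)
        exact ⟨⟨Nat.pos_of_dvd_of_pos h3 (by omega), by omega⟩, h3⟩
      · rintro ⟨_, h3⟩
        exact ⟨h3, by omega⟩
    rw [h2]
    push_cast
    rw [mul_add, add_div, mul_sum, sum_div]
    congr 1
    · ring
    · apply sum_congr rfl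
      intro k _
      split_ifs
      · ring
      · simp
  unfold zz
  rw [sum_congr rfl h1, sum_add_distrib, ← mul_sum, sum_comm]
  congr 1
  apply sum_congr rfl
  intro k _
  rw [← sum_filter, filter_filter, mul_sum]
  apply sum_congr _ (fun _ _ => rfl)
  ext h
  rw [mem_filter, mem_filter]
  constructor
  · rintro ⟨h3, _, h4⟩
    exact ⟨h3, h4⟩
  · rintro ⟨h3, h4⟩
    exact ⟨h3, (Dvd.intro k rfl).trans h4, h4⟩

theorem zz_zero (M : ℕ) (c : ℕ → ℂ) (m : ℕ) (h : M < m) : zz M c m = 0 := by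
  unfold zz
  rw [filter_eq_empty_iff.2]
  · simp
  · intro k hk hm
    rw [mem_Icc] at hk
    have := Nat.le_of_dvd (by omega) hm
    omega

theorem sum_Lphi (M : ℕ) (hM : 1 ≤ M) : ∑ k ∈ Icc 1 M, ArithmeticFunction.vonMangoldt k / (Nat.totient k : ℝ) ≤
    2 * (Real.log M + 6) := by
  have h1 := H370.nt_mertens_upper M hM
  calc ∑ k ∈ Icc 1 M, ArithmeticFunction.vonMangoldt k / (Nat.totient k : ℝ) ≤
        ∑ k ∈ Icc 1 M, 2 * (ArithmeticFunction.vonMangoldt k / k) := by
        apply sum_le_sum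
        intro k hk
        rw [mem_Icc] at hk
        by_cases h : IsPrimePow k
        · obtain ⟨p, j, hp, hj, rfl⟩ := h
          have hp' : p.Prime := hp.nat_prime
          have hp2 : (2:ℝ) ≤ p := by exact_mod_cast hp'.two_le
          have h2 : (Nat.totient (p ^ j) : ℝ) = (p:ℝ) ^ (j - 1) * (p - 1) := by
            rw [Nat.totient_prime_pow hp' hj]
            push_cast [Nat.cast_sub hp'.one_le]
            ring
          have h3 : ((p ^ j : ℕ) : ℝ) = (p:ℝ) ^ (j - 1) * p := by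
            push_cast
            rw [← pow_succ]
            congr 1
            omega
          have hpp : (0:ℝ) < (p:ℝ) ^ (j - 1) := by positivity
          have h4 : ((p ^ j : ℕ) : ℝ) ≤ 2 * (Nat.totient (p ^ j) : ℝ) := by
            rw [h2, h3]
            nlinarith
          have h5 : (0:ℝ) < (Nat.totient (p ^ j) : ℝ) := by
            rw [h2]
            apply mul_pos hpp
            linarith
          have h6 : (0:ℝ) < ((p ^ j : ℕ) : ℝ) := by
            rw [h3]
            positivity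
          rw [mul_div_assoc', div_le_div_iff₀ h5 h6]
          have h7 : 0 ≤ ArithmeticFunction.vonMangoldt (p ^ j) := ArithmeticFunction.vonMangoldt_nonneg
          nlinarith
        · have h2 : ArithmeticFunction.vonMangoldt k = 0 := by
            rw [ArithmeticFunction.vonMangoldt_eq_zero_iff]
            exact h
          rw [h2]
          simp
    _ = 2 * ∑ k ∈ Icc 1 M, ArithmeticFunction.vonMangoldt k / k := by rw [mul_sum]
    _ ≤ 2 * (Real.log M + 6) := by linarith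

theorem group_le (M : ℕ) (F : ℕ → ℝ) (hF : ∀ m, 0 ≤ F m) (h0 : ∀ m, M < m → F m = 0) :
    ∑ d ∈ Icc 1 M, ∑ k ∈ Icc 1 M, ArithmeticFunction.vonMangoldt k * F (d * k) ≤ Real.log M * ∑ m ∈ Icc 1 M, F m := by
  have h1 : ∑ d ∈ Icc 1 M, ∑ k ∈ Icc 1 M, ArithmeticFunction.vonMangoldt k * F (d * k) =
      ∑ m ∈ Icc 1 M, F m * ∑ k ∈ m.divisors, ArithmeticFunction.vonMangoldt k := by
    rw [sum_comm]
    have e1 : ∀ m ∈ Icc 1 M, F m * ∑ k ∈ m.divisors, ArithmeticFunction.vonMangoldt k =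
        ∑ k ∈ Icc 1 M, if k ∣ m then ArithmeticFunction.vonMangoldt k * F m else 0 := by
      intro m hm
      rw [mem_Icc] at hm
      rw [← sum_filter, mul_sum]
      have e2 : m.divisors = (Icc 1 M).filter (fun k => k ∣ m) := by
        ext k
        rw [Nat.mem_divisors, mem_filter, mem_Icc]
        constructor
        · rintro ⟨h3, _⟩
          have h4 := Nat.le_of_dvd (by omega) h3
          exact ⟨⟨Nat.pos_of_dvd_of_pos h3 (by omega), by omega⟩, h3⟩
        · rintro ⟨_, h3⟩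
          exact ⟨h3, by omega⟩
      rw [e2]
      apply sum_congr rfl
      intro k _
      ring
    rw [sum_congr rfl e1, sum_comm (s := Icc 1 M) (t := Icc 1 M) (f := fun m k => if k ∣ m then
      ArithmeticFunction.vonMangoldt k * F m else 0)]
    apply sum_congr rfl
    intro k hk
    rw [mem_Icc] at hk
    rw [← sum_filter]
    have e3 : ∑ d ∈ Icc 1 M, ArithmeticFunction.vonMangoldt k * F (d * k) =
        ∑ d ∈ (Icc 1 M).filter (fun d => d * k ≤ M), ArithmeticFunction.vonMangoldt k * F (d * k) := by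
      rw [sum_filter]
      apply sum_congr rfl
      intro d _
      split_ifs with h
      · rfl
      · rw [h0 _ (by omega), mul_zero]
    rw [e3]
    apply sum_nbij' (fun d => d * k) (fun m => m / k)
    · intro d hd
      rw [mem_filter, mem_Icc] at hd ⊢
      exact ⟨⟨Nat.mul_pos (by omega) (by omega), hd.2⟩, Dvd.intro_left d rfl⟩
    · intro m hm
      rw [mem_filter, mem_Icc] at hm ⊢
      obtain ⟨⟨h1, h2⟩, h3⟩ := hm
      rw [Nat.div_mul_cancel h3]
      have h4 := Nat.div_le_self m k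
      have h5 : 1 ≤ m / k := Nat.div_pos (Nat.le_of_dvd (by omega) h3) (by omega)
      exact ⟨⟨h5, by omega⟩, h2⟩
    · intro d hd
      exact Nat.mul_div_cancel d (by omega)
    · intro m hm
      rw [mem_filter] at hm
      exact Nat.div_mul_cancel hm.2
    · intro d _
      rfl
  rw [h1, mul_sum]
  apply sum_le_sum
  intro m hm
  rw [mem_Icc] at hm
  rw [ArithmeticFunction.vonMangoldt_sum, mul_comm]
  apply mul_le_mul_of_nonneg_right _ (hF m)
  exact Real.log_le_log (by exact_mod_cast hm.1) (by exact_mod_cast hm.2)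

theorem en_log (M : ℕ) (hM : 1 ≤ M) (c : ℕ → ℂ) :
    en M (fun n => c n * (Real.log n : ℝ)) ≤ (6 * (1 + Real.log M)) ^ 2 * en M c := by
  have hl : 0 ≤ Real.log M := Real.log_natCast_nonneg M
  set S : ℕ → ℂ := fun d => ∑ k ∈ Icc 1 M, (ArithmeticFunction.vonMangoldt k : ℂ) * zz M c (d * k) with hS
  have h1 : ∀ d ∈ Icc 1 M, (Nat.totient d : ℝ) * ‖zz M (fun n => c n * (Real.log n : ℝ)) d‖ ^ 2 ≤
      2 * Real.log M ^ 2 * ((Nat.totient d : ℝ) * ‖zz M c d‖ ^ 2) + 2 * ((Nat.totient d : ℝ) * ‖S d‖ ^ 2) := by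
    intro d hd
    rw [zz_log M c d hd]
    have hd' := mem_Icc.1 hd
    have h2 : Real.log d ≤ Real.log M := Real.log_le_log (by exact_mod_cast hd'.1) (by exact_mod_cast hd'.2)
    have h3 : 0 ≤ Real.log d := Real.log_natCast_nonneg d
    have h4 : ‖(Real.log d : ℂ) * zz M c d + S d‖ ≤ Real.log M * ‖zz M c d‖ + ‖S d‖ := by
      refine (norm_add_le _ _).trans ?_
      rw [norm_mul, Complex.norm_real, Real.norm_eq_abs, abs_of_nonneg h3]
      have := mul_le_mul_of_nonneg_right h2 (norm_nonneg (zz M c d))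
      linarith
    have h5 : ‖(Real.log d : ℂ) * zz M c d + S d‖ ^ 2 ≤ 2 * Real.log M ^ 2 * ‖zz M c d‖ ^ 2 + 2 * ‖S d‖ ^ 2 := by
      have h6 := pow_le_pow_left₀ (norm_nonneg _) h4 2
      nlinarith [sq_nonneg (Real.log M * ‖zz M c d‖ - ‖S d‖)]
    have h7 : (0:ℝ) ≤ (Nat.totient d : ℝ) := Nat.cast_nonneg _
    have h8 := mul_le_mul_of_nonneg_left h5 h7
    calc _ ≤ (Nat.totient d : ℝ) * (2 * Real.log M ^ 2 * ‖zz M c d‖ ^ 2 + 2 * ‖S d‖ ^ 2) := h8
      _ = _ := by ring
  have h2 : ∑ d ∈ Icc 1 M, (Nat.totient d : ℝ) * ‖S d‖ ^ 2 ≤ 2 * (Real.log M + 6) * (Real.log M * en M c) := by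
    have e1 : ∀ d ∈ Icc 1 M, (Nat.totient d : ℝ) * ‖S d‖ ^ 2 ≤ 2 * (Real.log M + 6) *
        ∑ k ∈ Icc 1 M, ArithmeticFunction.vonMangoldt k * ((Nat.totient (d * k) : ℝ) * ‖zz M c (d * k)‖ ^ 2) := by
      intro d _
      have e2 : ‖S d‖ ≤ ∑ k ∈ Icc 1 M, ArithmeticFunction.vonMangoldt k * ‖zz M c (d * k)‖ := by
        refine (norm_sum_le _ _).trans (le_of_eq ?_)
        apply sum_congr rfl
        intro k _
        rw [norm_mul, Complex.norm_real, Real.norm_eq_abs, abs_of_nonneg ArithmeticFunction.vonMangoldt_nonneg]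
      have e3 : (∑ k ∈ Icc 1 M, ArithmeticFunction.vonMangoldt k * ‖zz M c (d * k)‖) ^ 2 ≤
          (∑ k ∈ Icc 1 M, ArithmeticFunction.vonMangoldt k / (Nat.totient k : ℝ)) *
          ∑ k ∈ Icc 1 M, ArithmeticFunction.vonMangoldt k * (Nat.totient k : ℝ) * ‖zz M c (d * k)‖ ^ 2 := by
        apply sum_sq_le_sum_mul_sum_of_sq_eq_mul
        · intro k _
          exact div_nonneg ArithmeticFunction.vonMangoldt_nonneg (Nat.cast_nonneg _)
        · intro k _
          exact mul_nonneg (mul_nonneg ArithmeticFunction.vonMangoldt_nonneg (Nat.cast_nonneg _)) (sq_nonneg _)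
        · intro k hk
          rw [mem_Icc] at hk
          have : (0:ℝ) < (Nat.totient k : ℝ) := by exact_mod_cast Nat.totient_pos.2 hk.1
          field_simp
      have e4 := sum_Lphi M hM
      have e5 : ‖S d‖ ^ 2 ≤ 2 * (Real.log M + 6) *
          ∑ k ∈ Icc 1 M, ArithmeticFunction.vonMangoldt k * (Nat.totient k : ℝ) * ‖zz M c (d * k)‖ ^ 2 := by
        refine (pow_le_pow_left₀ (norm_nonneg _) e2 2).trans (e3.trans ?_)
        apply mul_le_mul_of_nonneg_right e4
        exact sum_nonneg fun k _ => mul_nonneg (mul_nonneg ArithmeticFunction.vonMangoldt_nonneg (Nat.cast_nonneg _)) (sq_nonneg _)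
      have e6 : (0:ℝ) ≤ (Nat.totient d : ℝ) := Nat.cast_nonneg _
      refine (mul_le_mul_of_nonneg_left e5 e6).trans ?_
      rw [mul_left_comm]
      apply mul_le_mul_of_nonneg_left _ (by linarith)
      rw [mul_sum]
      apply sum_le_sum
      intro k _
      have e7 : (Nat.totient d : ℝ) * (Nat.totient k : ℝ) ≤ (Nat.totient (d * k) : ℝ) := by
        exact_mod_cast Nat.totient_super_multiplicative d k
      have e8 : 0 ≤ ArithmeticFunction.vonMangoldt k * ‖zz M c (d * k)‖ ^ 2 :=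
        mul_nonneg ArithmeticFunction.vonMangoldt_nonneg (sq_nonneg _)
      nlinarith
    refine (sum_le_sum e1).trans ?_
    rw [← mul_sum]
    apply mul_le_mul_of_nonneg_left _ (by linarith)
    exact group_le M (fun m => (Nat.totient m : ℝ) * ‖zz M c m‖ ^ 2)
      (fun m => mul_nonneg (Nat.cast_nonneg _) (sq_nonneg _))
      (fun m hm => by
        show (Nat.totient m : ℝ) * ‖zz M c m‖ ^ 2 = 0
        rw [zz_zero M c m hm]
        simp)
  have h3 : en M (fun n => c n * (Real.log n : ℝ)) ≤ 2 * Real.log M ^ 2 * en M c +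
      2 * (2 * (Real.log M + 6) * (Real.log M * en M c)) := by
    unfold en at h2 ⊢
    refine (sum_le_sum h1).trans ?_
    rw [sum_add_distrib, ← mul_sum, ← mul_sum]
    linarith
  have h4 := en_nonneg M c
  have h5 : 2 * Real.log M ^ 2 + 2 * (2 * (Real.log M + 6) * Real.log M) ≤ (6 * (1 + Real.log M)) ^ 2 := by
    nlinarith
  have h6 := mul_le_mul_of_nonneg_right h5 h4
  nlinarith

theorem t_QL : S_QL := by
  refine ⟨20, by norm_num, fun M c hM => ?_⟩
  have hl : 0 ≤ Real.log M := Real.log_natCast_nonneg M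
  have hen := en_nonneg M c
  rw [QF_eq, Complex.ofReal_re, Complex.ofReal_im]
  refine ⟨hen, rfl, ?_⟩
  set cl : ℕ → ℂ := fun n => c n * (Real.log n : ℝ) with hcl
  -- the three parts
  have hsplit : ∑ h ∈ Icc 1 M, ∑ k ∈ Icc 1 M, c h * (starRingEnd ℂ) (c k) *
      ((1 / (Nat.lcm h k : ℝ) * Real.log ((Nat.gcd h k : ℝ) ^ 2 / ((h : ℝ) * k)) : ℝ) : ℂ) =
      2 * (∑ h ∈ Icc 1 M, ∑ k ∈ Icc 1 M, c h * (starRingEnd ℂ) (c k) *
        ((((Nat.gcd h k : ℝ) * Real.log (Nat.gcd h k : ℝ)) / ((h : ℝ) * k) : ℝ) : ℂ)) -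
      (∑ h ∈ Icc 1 M, ∑ k ∈ Icc 1 M, cl h * (starRingEnd ℂ) (c k) * (((Nat.gcd h k : ℝ) / ((h : ℝ) * k) : ℝ) : ℂ)) -
      ∑ h ∈ Icc 1 M, ∑ k ∈ Icc 1 M, c h * (starRingEnd ℂ) (cl k) * (((Nat.gcd h k : ℝ) / ((h : ℝ) * k) : ℝ) : ℂ) := by
    rw [mul_sum, ← sum_sub_distrib, ← sum_sub_distrib]
    apply sum_congr rfl
    intro h hh
    rw [mul_sum, ← sum_sub_distrib, ← sum_sub_distrib]
    apply sum_congr rfl
    intro k hk
    rw [mem_Icc] at hh hk
    have hh0 : (0:ℝ) < h := by exact_mod_cast hh.1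
    have hk0 : (0:ℝ) < k := by exact_mod_cast hk.1
    have hl0 : (0:ℝ) < (Nat.lcm h k : ℝ) := by exact_mod_cast Nat.lcm_pos (by omega) (by omega)
    have hg0 : (0:ℝ) < (Nat.gcd h k : ℝ) := by exact_mod_cast Nat.gcd_pos_of_pos_left k (by omega)
    have e : (Nat.gcd h k : ℝ) * (Nat.lcm h k : ℝ) = h * k := by exact_mod_cast Nat.gcd_mul_lcm h k
    have e1 : 1 / (Nat.lcm h k : ℝ) = (Nat.gcd h k : ℝ) / ((h : ℝ) * k) := by
      rw [div_eq_div_iff hl0.ne' (by positivity), one_mul, e]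
    have e2 : Real.log ((Nat.gcd h k : ℝ) ^ 2 / ((h : ℝ) * k)) = 2 * Real.log (Nat.gcd h k : ℝ) - Real.log h - Real.log k := by
      rw [Real.log_div (by positivity) (by positivity), Real.log_pow, Real.log_mul hh0.ne' hk0.ne']
      push_cast
      ring
    rw [e1, e2, hcl]
    simp only [map_mul, Complex.conj_ofReal]
    push_cast
    ring
  rw [hsplit]
  have hA := diag M c c gg (fun n => (n : ℝ) * Real.log n) (fun n _ => sum_gg n)
  have hB := diag M cl c (fun d => (Nat.totient d : ℝ)) (fun n => (n : ℝ)) (fun n _ => sum_phi n)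
  have hC := diag M c cl (fun d => (Nat.totient d : ℝ)) (fun n => (n : ℝ)) (fun n _ => sum_phi n)
  rw [hA, hB, hC]
  have bA : ‖∑ d ∈ Icc 1 M, (gg d : ℂ) * (zz M c d * (starRingEnd ℂ) (zz M c d))‖ ≤ 2 * Real.log M * en M c := by
    refine (norm_sum_le _ _).trans ?_
    unfold en
    rw [mul_sum]
    apply sum_le_sum
    intro d hd
    rw [mem_Icc] at hd
    rw [norm_mul, norm_mul, Complex.norm_conj, Complex.norm_real, Real.norm_eq_abs, abs_of_nonneg (gg_nonneg d)]
    have h1 := gg_le d hd.1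
    have h2 : Real.log d ≤ Real.log M := Real.log_le_log (by exact_mod_cast hd.1) (by exact_mod_cast hd.2)
    have h3 : (0:ℝ) ≤ (Nat.totient d : ℝ) := Nat.cast_nonneg _
    calc gg d * (‖zz M c d‖ * ‖zz M c d‖) ≤ (2 * Real.log d * (Nat.totient d : ℝ)) * (‖zz M c d‖ * ‖zz M c d‖) :=
          mul_le_mul_of_nonneg_right h1 (by positivity)
      _ ≤ (2 * Real.log M * (Nat.totient d : ℝ)) * (‖zz M c d‖ * ‖zz M c d‖) := by
          apply mul_le_mul_of_nonneg_right _ (by positivity)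
          apply mul_le_mul_of_nonneg_right _ h3
          linarith
      _ = _ := by ring
  have hcs : ∀ a b : ℕ → ℂ, ‖∑ d ∈ Icc 1 M, (((Nat.totient d : ℝ)) : ℂ) * (zz M a d * (starRingEnd ℂ) (zz M b d))‖ ^ 2 ≤
      en M a * en M b := by
    intro a b
    have e1 : ‖∑ d ∈ Icc 1 M, (((Nat.totient d : ℝ)) : ℂ) * (zz M a d * (starRingEnd ℂ) (zz M b d))‖ ≤
        ∑ d ∈ Icc 1 M, (Nat.totient d : ℝ) * (‖zz M a d‖ * ‖zz M b d‖) := by
      refine (norm_sum_le _ _).trans (le_of_eq ?_)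
      apply sum_congr rfl
      intro d _
      rw [norm_mul, norm_mul, Complex.norm_conj, Complex.norm_real, Real.norm_eq_abs, abs_of_nonneg (Nat.cast_nonneg _)]
    refine (pow_le_pow_left₀ (norm_nonneg _) e1 2).trans ?_
    apply sum_sq_le_sum_mul_sum_of_sq_eq_mul
    · intro d _
      positivity
    · intro d _
      positivity
    · intro d _
      ring
  have hlog := en_log M hM c
  have bBC : ∀ x : ℝ, 0 ≤ x → x ^ 2 ≤ en M cl * en M c → x ≤ 6 * (1 + Real.log M) * en M c := by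
    intro x hx0 hx
    have h1 : x ^ 2 ≤ (6 * (1 + Real.log M) * en M c) ^ 2 := by
      calc x ^ 2 ≤ en M cl * en M c := hx
        _ ≤ ((6 * (1 + Real.log M)) ^ 2 * en M c) * en M c := mul_le_mul_of_nonneg_right hlog hen
        _ = _ := by ring
    exact (pow_le_pow_iff_left₀ hx0 (by positivity) (by norm_num)).1 h1
  have bB := bBC _ (norm_nonneg _) (hcs cl c)
  have bC := bBC _ (norm_nonneg _) (by
    have := hcs c cl
    rwa [mul_comm (en M c)] at this)
  refine (norm_sub_le _ _).trans ?_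
  have b1 := norm_sub_le (2 * ∑ d ∈ Icc 1 M, (gg d : ℂ) * (zz M c d * (starRingEnd ℂ) (zz M c d)))
    (∑ d ∈ Icc 1 M, (((Nat.totient d : ℝ)) : ℂ) * (zz M cl d * (starRingEnd ℂ) (zz M c d)))
  rw [norm_mul, Complex.norm_ofNat] at b1
  have b2 : 0 ≤ Real.log M * en M c := mul_nonneg hl hen
  nlinarith

end Pool.Agent.Q178.UM.QL
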