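import Pool.Agent.Q97.UM.Stm3

set_option autoImplicit false

/-! Project UM (helper97), job ZF: finiteness and measurability of the counts of zeros. -/

namespace Pool.Agent.Q178.UM.ZF

open Filter Topology MeasureTheory Complex Set
open Pool.Agent.Q97.UM

theorem zero_of_odd {u : ℝ} (h : Odd (analyticOrderNatAt riemannZeta (1 / 2 + u * I))) :
    riemannZeta (1 / 2 + u * I) = 0 := by
  by_contra hne
  have hs : (1 / 2 + u * I : ℂ) ≠ 1 := by
    intro h
    have := congrArg Complex.re h
    norm_num at this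
  have han : AnalyticAt ℂ riemannZeta (1 / 2 + u * I) := by
    apply DifferentiableOn.analyticAt (s := {1}ᶜ)
    · intro z hz
      exact (differentiableAt_riemannZeta hz).differentiableWithinAt
    · exact isOpen_compl_singleton.mem_nhds hs
  have h0 : analyticOrderAt riemannZeta (1 / 2 + u * I) = 0 := by
    rw [han.analyticOrderAt_eq_zero]
    exact hne
  rw [analyticOrderNatAt, h0] at h
  simp at h

theorem fin_Zo (t r : ℝ) : (Zo t r).Finite := by
  by_contra hinf
  have hinf' : (Zo t r).Infinite := hinf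
  have hsub : Zo t r ⊆ Icc (t - r) (t + r) := by
    intro u hu
    have h := abs_le.1 hu.1
    exact ⟨by linarith [h.1], by linarith [h.2]⟩
  obtain ⟨u0, _, hacc⟩ := hinf'.exists_accPt_of_subset_isCompact isCompact_Icc hsub
  have hfr : ∃ᶠ u in 𝓝[≠] u0, u ∈ Zo t r := accPt_iff_frequently_nhdsNE.1 hacc
  set s0 : ℂ := 1 / 2 + u0 * I with hs0
  have htend : Tendsto (fun u : ℝ => (1 / 2 + u * I : ℂ)) (𝓝[≠] u0) (𝓝[≠] s0) := by
    apply tendsto_nhdsWithin_of_tendsto_nhds_of_eventually_within
    · have hc : Continuous (fun u : ℝ => (1 / 2 + u * I : ℂ)) := by fun_prop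
      exact (hc.tendsto u0).mono_left nhdsWithin_le_nhds
    · filter_upwards [self_mem_nhdsWithin] with u hu h
      apply hu
      have h1 := congrArg Complex.im h
      simp [hs0] at h1
      exact h1
  have hfr2 : ∃ᶠ s in 𝓝[≠] s0, riemannZeta s = 0 := by
    apply htend.frequently
    exact hfr.mono fun u hu => zero_of_odd hu.2
  have hs1 : s0 ∈ ({1}ᶜ : Set ℂ) := by
    intro h
    have := congrArg Complex.re (mem_singleton_iff.1 h)
    rw [hs0] at this
    norm_num at this
  have han : AnalyticOnNhd ℂ riemannZeta ({1}ᶜ : Set ℂ) := by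
    apply DifferentiableOn.analyticOnNhd _ isOpen_compl_singleton
    intro z hz
    exact (differentiableAt_riemannZeta hz).differentiableWithinAt
  have hpre : IsPreconnected ({1}ᶜ : Set ℂ) := by
    apply (isConnected_compl_singleton_of_one_lt_rank _ 1).isPreconnected
    rw [Complex.rank_real_complex]
    norm_num
  have heq := han.eqOn_zero_of_preconnected_of_frequently_eq_zero hpre hs1 hfr2
  have h2 : riemannZeta 2 = 0 := heq (by
    show (2 : ℂ) ∈ ({1}ᶜ : Set ℂ)
    simp)
  exact riemannZeta_ne_zero_of_one_lt_re (by norm_num) h2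

theorem t_ZF : S_ZF := by
  refine ⟨fin_Zo, fun r k => ?_⟩
  set Z0 : Set ℝ := {u : ℝ | Odd (analyticOrderNatAt riemannZeta (1 / 2 + u * I))} with hZ0
  have hc : Z0.Countable := by
    have h1 : Z0 ⊆ ⋃ n : ℕ, Zo 0 n := by
      intro u hu
      obtain ⟨n, hn⟩ := exists_nat_ge |u|
      rw [mem_iUnion]
      refine ⟨n, ?_, hu⟩
      rwa [sub_zero]
    exact (countable_iUnion fun n : ℕ => (fin_Zo 0 (n : ℝ)).countable).mono h1
  have h1 : {t : ℝ | k ≤ (Zo t r).ncard} =
      ⋃ F ∈ {F : Set ℝ | (F.Finite ∧ F ⊆ Z0) ∧ F.ncard = k}, ⋂ u ∈ F, {t : ℝ | |u - t| ≤ r} := by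
    ext t
    simp only [mem_ofPred_eq, mem_iUnion, mem_iInter, exists_prop]
    constructor
    · intro h
      obtain ⟨F, hF, hFk⟩ := exists_subset_card_eq h
      refine ⟨F, ⟨⟨(fin_Zo t r).subset hF, fun u hu => (hF hu).2⟩, hFk⟩, fun u hu => (hF hu).1⟩
    · rintro ⟨F, ⟨⟨hF1, hF2⟩, hFk⟩, hF⟩
      rw [← hFk]
      exact ncard_le_ncard (fun u hu => ⟨hF u hu, hF2 hu⟩) (fin_Zo t r)
  rw [h1]
  apply MeasurableSet.biUnion
  · exact (countable_ofPred_finite_subset hc).mono fun F hF => hF.1
  · intro F _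
    apply IsClosed.measurableSet
    apply isClosed_biInter
    intro u _
    exact isClosed_le (by fun_prop) continuous_const

end Pool.Agent.Q178.UM.ZF
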